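import Pool.Agent.LibIG50.TA
import Pool.Agent.LibIG50.TB
import Pool.Agent.LibIG50.TD1
import Pool.Agent.LibIG50.TI
import Pool.Agent.LibIG50.TJ
import Pool.Agent.LibBH2.TwTools

/-!
Orthogonality of points of elliptic curves: basic definitions.
-/

open scoped Classical
open WeierstrassCurve Pool.Agent.LibBH2 Pool.Agent.LibIG50

namespace Pool.Agent.LibTP50

variable {k : Type} [Field k]

/-- the curve `y ^ 2 = x (x - κ) (x - κ μ)` -/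
def tl (κ μ : k) : WeierstrassCurve k := ⟨0, -(κ * (1 + μ)), 0, κ ^ 2 * μ, 0⟩

/-- the curve `y ^ 2 = (x - e₁) (x - e₂) (x - e₃)` -/
def cv (e₁ e₂ e₃ : k) : WeierstrassCurve k :=
  ⟨0, -(e₁ + e₂ + e₃), 0, e₁ * e₂ + e₁ * e₃ + e₂ * e₃, -(e₁ * e₂ * e₃)⟩

/-- `e₁, e₂, e₃` are the abscissas of the points of order two of `W` -/
structure Roots (W : WeierstrassCurve k) (e₁ e₂ e₃ : k) : Prop where
  h12 : e₁ ≠ e₂
  h13 : e₁ ≠ e₃
  h23 : e₂ ≠ e₃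
  eq : ∀ x : k, 4 * x ^ 3 + W.b₂ * x ^ 2 + 2 * W.b₄ * x + W.b₆ =
    4 * ((x - e₁) * (x - e₂) * (x - e₃))

end Pool.Agent.LibTP50
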