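import Pool.Agent.LibTP50.Base

/-!
Curves with a rational point of order two.
-/

open scoped Classical
open WeierstrassCurve Pool.Agent.LibBH2 Pool.Agent.LibIG50

namespace Pool.Agent.LibTP50

variable {k : Type} [Field k]

/-- the curve `y ^ 2 = (x - c) (x ^ 2 + a x + b)` -/
def cq (c a b : k) : WeierstrassCurve k := ⟨0, a - c, 0, b - a * c, -(b * c)⟩

/-- the abscissas of the points of order two of `W` are `c` and the two roots of
`x ^ 2 + a x + b` -/
structure Quad (W : WeierstrassCurve k) (c a b : k) : Prop where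
  disc : a ^ 2 - 4 * b ≠ 0
  ne : c ^ 2 + a * c + b ≠ 0
  eq : ∀ x : k, 4 * x ^ 3 + W.b₂ * x ^ 2 + 2 * W.b₄ * x + W.b₆ =
    4 * ((x - c) * (x ^ 2 + a * x + b))

end Pool.Agent.LibTP50
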