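import Pool.Agent.LibTP50.Main

/-!
The data at one place.
-/

open scoped Classical
open WeierstrassCurve Pool.Agent.LibBH2 Pool.Agent.LibIG50 IsDedekindDomain NumberField

namespace Pool.Agent.LibTP50

section val

variable {K Γ₀ : Type} [Field K] [LinearOrderedCommGroupWithZero Γ₀] (v : Valuation K Γ₀)

theorem val_ne_of_lt {a b : K} (h : v b ≤ 1) (h' : 1 < v a) : a ≠ b := by
  rintro rfl
  exact absurd h' (not_lt.2 h)

theorem val_sub_of_lt {a b : K} (h : v b ≤ 1) (h' : 1 < v a) : v (a - b) = v a := by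
  have h1 : v b < v a := lt_of_le_of_lt h h'
  rw [Valuation.map_sub_swap]
  exact Valuation.map_sub_eq_of_lt_right v h1

theorem val_sub_of_lt' {a b : K} (h : v b ≤ 1) (h' : 1 < v a) : v (b - a) = v a := by
  rw [Valuation.map_sub_swap]
  exact val_sub_of_lt v h h'

end val

theorem ort_torsion {K : Type} [Field K] [CharZero K] {W W' : WeierstrassCurve K} [W.IsElliptic]
    [W'.IsElliptic] {P : W.toAffine.Point} {Q : W'.toAffine.Point} (h : IsOfFinAddOrder P) :
    Ort P Q := by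
  rw [isOfFinAddOrder_iff_nsmul_eq_zero] at h
  obtain ⟨n, hn, h1⟩ := h
  refine ort_closure ∅ (fun _ h => absurd h (Set.notMem_empty _)) hn ?_
  rw [h1]
  exact AddSubgroup.zero_mem _

/-- a point of infinite order has no abscissa in common with the points of order two -/
theorem ne_of_roots {K : Type} [Field K] [CharZero K] {W : WeierstrassCurve K} {e₁ e₂ e₃ x y : K}
    (hW : Roots W e₁ e₂ e₃) (h : W.toAffine.Nonsingular x y)
    (ho : ¬ IsOfFinAddOrder (Affine.Point.some x y h : W.toAffine.Point)) :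
    (x - e₁) * (x - e₂) * (x - e₃) ≠ 0 := by
  intro h0
  apply ho
  refine isOfFinAddOrder_iff_nsmul_eq_zero.2 ⟨2, two_pos, ?_⟩
  have h1 := hW.eq x
  rw [h0, mul_zero] at h1
  have h2 := h.1
  rw [Affine.equation_iff] at h2
  have h3 : (2 * y + W.a₁ * x + W.a₃) ^ 2 = 0 := by
    rw [← h1, WeierstrassCurve.b₂, WeierstrassCurve.b₄, WeierstrassCurve.b₆]
    linear_combination 4 * h2
  have h4 : 2 * y + W.a₁ * x + W.a₃ = 0 := pow_eq_zero_iff two_ne_zero |>.1 h3
  rw [two_nsmul]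
  apply Affine.Point.add_self_of_Y_eq
  rw [Affine.negY]
  linear_combination h4

/-- completing the square -/
theorem rel_cv {K : Type} [Field K] [CharZero K] {W : WeierstrassCurve K} {e₁ e₂ e₃ : K}
    (h : Roots W e₁ e₂ e₃) : TD1.Rel W (cv e₁ e₂ e₃) 1 0 (W.a₁ / 2) (W.a₃ / 2) := by
  have c0 : W.b₆ = -4 * (e₁ * e₂ * e₃) := by
    have := h.eq 0
    linear_combination this
  have c1 := h.eq 1
  have cm1 := h.eq (-1)
  have hb2 : W.b₂ = -4 * (e₁ + e₂ + e₃) := by
    have h2 : (2 : K) ≠ 0 := two_ne_zero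
    apply mul_left_cancel₀ h2
    linear_combination c1 + cm1 - 2 * c0
  have hb4 : W.b₄ = 2 * (e₁ * e₂ + e₁ * e₃ + e₂ * e₃) := by
    have h2 : (4 : K) ≠ 0 := by norm_num
    apply mul_left_cancel₀ h2
    linear_combination c1 - cm1
  rw [WeierstrassCurve.b₂] at hb2
  rw [WeierstrassCurve.b₄] at hb4
  rw [WeierstrassCurve.b₆] at c0
  refine ⟨one_ne_zero, ?_, ?_, ?_, ?_, ?_⟩ <;> simp only [cv]
  · ring
  · linear_combination (1 / 4 : K) * hb2
  · ring
  · linear_combination (1 / 2 : K) * hb4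
  · linear_combination (1 / 4 : K) * c0

variable (K : Type) [Field K] [NumberField K]

theorem val_two_le (v : HeightOneSpectrum (𝓞 K)) : v.valuation K 2 ≤ 1 := by
  have h1 : v.valuation K (algebraMap (𝓞 K) K 2) ≤ 1 := v.valuation_le_one 2
  rwa [map_ofNat (algebraMap (𝓞 K) K)] at h1

theorem exists_big (v : HeightOneSpectrum (𝓞 K)) : ∃ m : K, 1 < v.valuation K m := by
  obtain ⟨π, hπ⟩ := v.valuation_exists_uniformizer K
  refine ⟨π⁻¹, ?_⟩
  rw [map_inv₀, hπ]
  have h1 : (WithZero.exp (-1 : ℤ)) < 1 := by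
    rw [← WithZero.exp_zero, WithZero.exp_lt_exp]; norm_num
  exact (one_lt_inv₀ (by simp)).2 h1

/-- the data at a place, torsion case -/
theorem datum_torsion (E : WeierstrassCurve K) [E.IsElliptic] (A : AddSubgroup E.toAffine.Point)
    (hA : ∀ a : A, IsOfFinAddOrder a) :
    ∃ t : K, t ≠ 0 ∧ t ≠ 1 ∧ ∀ S : Set (HeightOneSpectrum (𝓞 K)), S.Finite → ∃ v ∉ S, ∃ m : K,
      1 < v.valuation K m ∧ m ≠ t ∧
      ∀ (h : (crv t m).toAffine.Nonsingular (kap t m * t) (kap t m ^ 2)), ∀ P ∈ A,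
        Ort P (Affine.Point.some _ _ h : (crv t m).toAffine.Point) := by
  refine ⟨2, two_ne_zero, by norm_num, fun S hS => ?_⟩
  obtain ⟨v, hv⟩ := exists_place K S hS
  obtain ⟨m, hm⟩ := exists_big K v
  have hm2 : m ≠ 2 := val_ne_of_lt _ (val_two_le K v) hm
  have hm0 : m ≠ 0 := val_ne_of_lt (v.valuation K) (by rw [map_zero]; exact zero_le_one) hm
  have hm1 : m ≠ 1 := val_ne_of_lt (v.valuation K) (by rw [map_one]) hm
  refine ⟨v, hv, m, hm, hm2, fun h P hP => ?_⟩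
  have : (crv 2 m).IsElliptic := tl_elliptic (kap_ne two_ne_zero (by norm_num) hm2) hm0 hm1
  apply ort_torsion
  have := A.subtype.isOfFinAddOrder (hA ⟨P, hP⟩)
  exact this

/-- the data at a place, main case -/
theorem datum_main (E : WeierstrassCurve K) [E.IsElliptic] {e₁ e₂ e₃ : K} (hE : Roots E e₁ e₂ e₃)
    (p r : E.toAffine.Point) (hp : ¬ IsOfFinAddOrder p) (hr : ¬ IsOfFinAddOrder r) :
    ∃ t : K, t ≠ 0 ∧ t ≠ 1 ∧ ∀ S : Set (HeightOneSpectrum (𝓞 K)), S.Finite → ∃ v ∉ S, ∃ m : K,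
      1 < v.valuation K m ∧ m ≠ t ∧
      ∀ (h : (crv t m).toAffine.Nonsingular (kap t m * t) (kap t m ^ 2)), ∀ P ∈ ({p, r} : Set _),
        Ort P (Affine.Point.some _ _ h : (crv t m).toAffine.Point) := by
  have h12 : e₁ - e₂ ≠ 0 := sub_ne_zero.2 hE.h12
  have h21 : e₂ - e₁ ≠ 0 := sub_ne_zero.2 hE.h12.symm
  have h13 : e₁ - e₃ ≠ 0 := sub_ne_zero.2 hE.h13
  have h23 : e₂ - e₃ ≠ 0 := sub_ne_zero.2 hE.h23
  obtain ⟨xp, yp, hpn, rfl⟩ : ∃ x y h, p = Affine.Point.some x y h := by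
    rcases p with _ | ⟨x, y, h⟩
    · exact absurd (isOfFinAddOrder_iff_nsmul_eq_zero.2 ⟨1, one_pos, smul_zero _⟩) hp
    · exact ⟨x, y, h, rfl⟩
  have hpr := ne_of_roots hE hpn hp
  have hp1 : xp - e₁ ≠ 0 := fun h => hpr (by rw [h]; ring)
  have hp2 : xp - e₂ ≠ 0 := fun h => hpr (by rw [h]; ring)
  obtain ⟨t, ht⟩ : ∃ t, t = (xp - e₁) / (e₂ - e₁) := ⟨_, rfl⟩
  have hte : t * (e₂ - e₁) = xp - e₁ := by rw [ht, div_mul_cancel₀ _ h21]
  have ht0 : t ≠ 0 := by
    rintro rfl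
    rw [zero_mul] at hte
    exact hp1 hte.symm
  have ht1 : t ≠ 1 := by
    rintro rfl
    apply hp2
    linear_combination - hte
  have ht1' : t - 1 ≠ 0 := sub_ne_zero.2 ht1
  refine ⟨t, ht0, ht1, fun S hS => ?_⟩
  have hfin : (S ∪ ({v | 1 < v.valuation K e₁} ∪ {v | 1 < v.valuation K e₂} ∪
      {v | 1 < v.valuation K e₃} ∪ {v | v.valuation K (e₁ - e₂) ≠ 1} ∪
      {v | v.valuation K (e₁ - e₃) ≠ 1} ∪ {v | v.valuation K (e₂ - e₃) ≠ 1} ∪
      {v | v.valuation K 2 ≠ 1} ∪ {v | v.valuation K t ≠ 1} ∪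
      {v | v.valuation K (t - 1) ≠ 1}) : Set (HeightOneSpectrum (𝓞 K))).Finite := by
    have hs : ∀ x : K, {v : HeightOneSpectrum (𝓞 K) | 1 < v.valuation K x}.Finite :=
      fun x => HeightOneSpectrum.Support.finite (𝓞 K) x
    exact hS.union ((((((((((hs _).union (hs _)).union (hs _)).union
      (finite_not_unit K _ h12)).union (finite_not_unit K _ h13)).union
      (finite_not_unit K _ h23)).union (finite_not_unit K _ two_ne_zero)).union
      (finite_not_unit K _ ht0)).union (finite_not_unit K _ ht1')))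
  obtain ⟨v, hv⟩ := exists_place K _ hfin
  simp only [Set.mem_union, Set.mem_ofPred_eq, not_or, not_lt, ne_eq, not_not] at hv
  obtain ⟨hvS, ⟨⟨⟨⟨⟨⟨⟨⟨v1, v2⟩, v3⟩, v12⟩, v13⟩, v23⟩, vtwo⟩, vt⟩, vt1⟩⟩ := hv
  refine ⟨v, hvS, ?_⟩
  have R := rel_cv hE
  have hr' : ¬ IsOfFinAddOrder (TD1.vc R r) := fun h =>
    hr ((injective_iff_map_eq_zero' _).1 (TD1.vc_bijective R).1 |> fun _ =>
      (isOfFinAddOrder_iff_nsmul_eq_zero.1 h).elim fun n hn =>
        isOfFinAddOrder_iff_nsmul_eq_zero.2 ⟨n, hn.1, (TD1.vc_bijective R).1 (by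
          rw [map_nsmul, hn.2, map_zero])⟩)
  obtain ⟨N, x, y', hxn, hN, hNR, hx⟩ := exists_pole K v e₁ e₂ e₃ v1 v2 v3 v12 v13 v23 vtwo _ hr'
  rw [← map_nsmul] at hNR
  obtain ⟨y, hyn, hNr⟩ : ∃ y h, N • r = Affine.Point.some x y h := by
    rcases hNr : N • r with _ | ⟨x₀, y₀, h₀⟩
    · rw [hNr] at hNR
      exact absurd hNR.symm (Affine.Point.some_ne_zero _)
    · rw [hNr, TD1.vc_some, Affine.Point.some.injEq] at hNR
      obtain rfl : x₀ = x := by
        have := hNR.1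
        linear_combination this
      exact ⟨y₀, h₀, rfl⟩
  have hx1 : v.valuation K (x - e₁) = v.valuation K x := val_sub_of_lt _ v1 hx
  have hx2 : v.valuation K (x - e₂) = v.valuation K x := val_sub_of_lt _ v2 hx
  have hx3 : v.valuation K (x - e₃) = v.valuation K x := val_sub_of_lt _ v3 hx
  have hx0 : v.valuation K x ≠ 0 := fun h => absurd hx (by rw [h]; exact not_lt.2 zero_le_one)
  have hxe1 : x - e₁ ≠ 0 := fun h => hx0 (by rw [← hx1, h, map_zero])
  have hxe2 : x - e₂ ≠ 0 := fun h => hx0 (by rw [← hx2, h, map_zero])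
  have hxe3 : x - e₃ ≠ 0 := fun h => hx0 (by rw [← hx3, h, map_zero])
  obtain ⟨g, hg⟩ : ∃ g, g = (x - e₁) * (x - e₂) / ((e₂ - e₁) * (x - e₃)) := ⟨_, rfl⟩
  have hge : g * ((e₂ - e₁) * (x - e₃)) = (x - e₁) * (x - e₂) := by
    rw [hg, div_mul_cancel₀ _ (mul_ne_zero h21 hxe3)]
  have v21 : v.valuation K (e₂ - e₁) = 1 := by rw [Valuation.map_sub_swap]; exact v12
  have hvg : v.valuation K g = v.valuation K x := by
    rw [hg, map_div₀, map_mul, map_mul, hx1, hx2, hx3, v21, one_mul, mul_div_assoc,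
      div_self hx0, mul_one]
  have hg0 : g ≠ 0 := by
    rintro rfl
    rw [map_zero] at hvg
    exact hx0 hvg.symm
  obtain ⟨m, hm⟩ : ∃ m, m = t - t * (t - 1) * g := ⟨_, rfl⟩
  have hvm : 1 < v.valuation K m := by
    have h1 : 1 < v.valuation K (t * (t - 1) * g) := by
      rw [map_mul, map_mul, vt, vt1, one_mul, one_mul, hvg]; exact hx
    rw [hm, val_sub_of_lt' _ vt.le h1]
    exact h1
  have hmt : m ≠ t := by
    intro h
    apply mul_ne_zero (mul_ne_zero ht0 ht1') hg0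
    linear_combination hm - h
  have hm0 : m ≠ 0 := val_ne_of_lt (v.valuation K) (by rw [map_zero]; exact zero_le_one) hvm
  have hm1 : m ≠ 1 := val_ne_of_lt (v.valuation K) (by rw [map_one]) hvm
  have hκ : kap t m ≠ 0 := kap_ne ht0 ht1 hmt
  have hEl : (crv t m).IsElliptic := tl_elliptic hκ hm0 hm1
  have hRt : Roots (crv t m) 0 (kap t m) (kap t m * m) := tl_roots hκ hm0 hm1
  refine ⟨m, hvm, hmt, fun h P hP => ?_⟩
  rcases hP with rfl | rfl
  · apply ort_of_level hE hRt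
    rw [sub_zero, sub_zero, ← hte]
    ring
  · apply ort_nsmul hN
    rw [hNr]
    apply ort_of_level2 hE hRt hyn h
    · exact mul_ne_zero (mul_ne_zero hxe1 hxe2) hxe3
    · have e1 : (kap t m * t - 0) * (kap t m * t - kap t m) * (kap t m * t - kap t m * m) =
          kap t m ^ 3 * (t * (t - 1) * (t - m)) := by ring
      rw [e1]
      exact mul_ne_zero (pow_ne_zero 3 hκ) hκ
    · have e1 : t - m = t * (t - 1) * g := by rw [hm]; ring
      have e2 : kap t m * t - kap t m * m = kap t m * (t * (t - 1) * g) := by rw [← e1]; ring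
      rw [e2, ← hge]
      ring

end Pool.Agent.LibTP50
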