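import Mathlib

/-!
Task HA: the duplication map of `y ^ 2 = x (x - 1) (x - m)` and heights, uniformly in `m`.
-/

open Height

namespace Pool.Agent.LibTP50

/-- the integer coefficients of the entries of the matrix of the Bezout identities -/
def coefHA : (Fin 2 × Fin 2) → Fin 4 → Fin 6 → ℤ := fun p =>
  if p = (0, 0) then
    ![![0, 0, 0, 0, 0, 0], ![0, 0, 0, 0, -12, 0], ![0, 0, 0, 8, 8, 0], ![0, 0, 4, -8, 4, 0]]
  else if p = (0, 1) then
    ![![0, 0, 0, 0, 0, 3], ![0, 0, 0, 0, 1, 1], ![0, 0, 0, 0, -5, 0], ![0, 0, 0, -2, -2, 0]]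
  else if p = (1, 0) then
    ![![4, -8, 4, 0, 0, 0], ![8, 8, 0, 0, 0, 0], ![-12, 0, 0, 0, 0, 0], ![0, 0, 0, 0, 0, 0]]
  else
    ![![0, -2, -2, 0, 0, 0], ![0, -5, 0, 0, 0, 0], ![1, 1, 0, 0, 0, 0], ![3, 0, 0, 0, 0, 0]]

theorem pow_heightHA (K : Type) [Field K] [NumberField K] (n : ℕ) (x z : K) (h : ![x, z] ≠ 0) :
    mulHeight (fun i : Fin (n + 1) => x ^ (i : ℕ) * z ^ (n - (i : ℕ))) ≤ mulHeight ![x, z] ^ n := by
  have h1 := mulHeight_fun_prod_eq (α := Fin n) (ι := fun _ => Fin 2) (x := fun _ => ![x, z])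
    (fun _ => h)
  rw [Finset.prod_const, Finset.card_univ, Fintype.card_fin] at h1
  rw [← h1]
  let f : Fin (n + 1) → (Fin n → Fin 2) := fun i a => if (a : ℕ) < (i : ℕ) then 0 else 1
  have h2 : (fun i : Fin (n + 1) => x ^ (i : ℕ) * z ^ (n - (i : ℕ))) =
      (fun I : Fin n → Fin 2 => ∏ a, ![x, z] (I a)) ∘ f := by
    funext i
    simp only [Function.comp_apply, f]
    have h3 : ∀ a : Fin n, ![x, z] (if (a : ℕ) < (i : ℕ) then 0 else 1) =
        if (a : ℕ) < (i : ℕ) then x else z := by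
      intro a
      split_ifs <;> simp
    rw [Finset.prod_congr rfl (fun a _ => h3 a), Finset.prod_ite, Finset.prod_const,
      Finset.prod_const]
    have hi : (i : ℕ) ≤ n := Nat.lt_succ_iff.1 i.2
    have c1 : (Finset.univ.filter (fun a : Fin n => (a : ℕ) < (i : ℕ))).card = (i : ℕ) := by
      rw [Fin.card_filter_val_lt]
      exact min_eq_right hi
    have c2 : (Finset.univ.filter (fun a : Fin n => ¬ (a : ℕ) < (i : ℕ))).card = n - (i : ℕ) := by
      have := Finset.card_filter_add_card_filter_not (s := (Finset.univ : Finset (Fin n)))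
        (fun a : Fin n => (a : ℕ) < (i : ℕ))
      rw [c1, Finset.card_univ, Fintype.card_fin] at this
      omega
    rw [c1, c2]
  rw [h2]
  exact mulHeight_comp_le f _

/-- lower bound for the height of the duplication map, uniform in the parameter `m` -/
theorem height_dup (K : Type) [Field K] [NumberField K] :
    ∃ C : ℝ, 1 ≤ C ∧ ∀ m X Z : K, m ≠ 0 → m ≠ 1 → ![X, Z] ≠ 0 →
      mulHeight ![X, Z] ^ 4 ≤ C * mulHeight₁ m ^ 5 *
        mulHeight ![(X ^ 2 - m * Z ^ 2) ^ 2, 4 * X * Z * (X - Z) * (X - m * Z)] := by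
  set L : (Fin 2 × Fin 2) × (Fin 4 × Fin 6) → K := fun p => ((coefHA p.1 p.2.1 p.2.2 : ℤ) : K)
    with hL
  set w := totalWeight K with hw
  refine ⟨(Nat.card (Fin 2) : ℝ) ^ w * ((Nat.card (Fin 4 × Fin 6) : ℝ) ^ w * mulHeight L), ?_, ?_⟩
  · have h1 : (1 : ℝ) ≤ (Nat.card (Fin 2) : ℝ) ^ w := one_le_pow₀ (by simp)
    have h2 : (1 : ℝ) ≤ (Nat.card (Fin 4 × Fin 6) : ℝ) ^ w := one_le_pow₀ (by simp)
    have h3 := one_le_mulHeight L
    exact one_le_mul_of_one_le_of_one_le h1 (one_le_mul_of_one_le_of_one_le h2 h3)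
  intro m X Z hm0 hm1 hXZ
  set u : Fin 4 × Fin 6 → K := fun a => (X ^ (a.1 : ℕ) * Z ^ (3 - (a.1 : ℕ))) *
    (m ^ (a.2 : ℕ) * 1 ^ (5 - (a.2 : ℕ))) with hu
  set Mx : Fin 2 × Fin 2 → K := fun p => ∑ a, L (p, a) * u a with hMx
  set FG : Fin 2 → K := ![(X ^ 2 - m * Z ^ 2) ^ 2, 4 * X * Z * (X - Z) * (X - m * Z)] with hFG
  have hm1' : m - 1 ≠ 0 := sub_ne_zero.2 hm1
  have hc : 4 * m ^ 2 * (m - 1) ^ 2 ≠ 0 :=
    mul_ne_zero (mul_ne_zero (by norm_num) (pow_ne_zero _ hm0)) (pow_ne_zero _ hm1')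
  have hid : (fun j : Fin 2 => ∑ i, Mx (j, i) * FG i) =
      (4 * m ^ 2 * (m - 1) ^ 2) • (![X, Z] ^ 7 : Fin 2 → K) := by
    funext j
    rw [Fin.sum_univ_two]
    simp only [hMx, Fintype.sum_prod_type, Fin.sum_univ_four, Fin.sum_univ_six, hL, hu, hFG]
    fin_cases j
    · simp [coefHA]
      ring
    · simp [coefHA]
      ring
  have h1 : mulHeight ![X, Z] ^ 7 ≤ (Nat.card (Fin 2) : ℝ) ^ w * mulHeight Mx * mulHeight FG := by
    have := mulHeight_linearMap_apply_le Mx FG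
    rw [hid, mulHeight_smul_eq_mulHeight _ hc, mulHeight_pow] at this
    exact this
  have h2 : mulHeight Mx ≤ (Nat.card (Fin 4 × Fin 6) : ℝ) ^ w * mulHeight L * mulHeight u :=
    mulHeight_linearMap_apply_le L u
  have h3 : mulHeight u ≤ mulHeight ![X, Z] ^ 3 * mulHeight₁ m ^ 5 := by
    have hX : (fun i : Fin 4 => X ^ (i : ℕ) * Z ^ (3 - (i : ℕ))) ≠ 0 := by
      intro h0
      apply hXZ
      have e0 := congrFun h0 0
      have e3 := congrFun h0 3
      simp at e0 e3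
      rw [e0, e3]
      ext i
      fin_cases i <;> simp
    have hm : (fun j : Fin 6 => m ^ (j : ℕ) * (1 : K) ^ (5 - (j : ℕ))) ≠ 0 := by
      intro h0
      have e0 := congrFun h0 0
      simp at e0
    have hm' : ![m, 1] ≠ 0 := by
      intro h0
      have e0 := congrFun h0 1
      simp at e0
    rw [hu, mulHeight_fun_mul_eq hX hm]
    apply mul_le_mul (pow_heightHA K 3 X Z hXZ) _ (mulHeight_pos _).le (by positivity)
    rw [mulHeight₁_eq_mulHeight]
    exact pow_heightHA K 5 m 1 hm'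
  have hp : 0 < mulHeight ![X, Z] := mulHeight_pos _
  have hF := mulHeight_pos FG
  have hLp := mulHeight_pos L
  have h4 : mulHeight ![X, Z] ^ 7 ≤ (Nat.card (Fin 2) : ℝ) ^ w *
      ((Nat.card (Fin 4 × Fin 6) : ℝ) ^ w * mulHeight L *
        (mulHeight ![X, Z] ^ 3 * mulHeight₁ m ^ 5)) * mulHeight FG := by
    refine h1.trans ?_
    apply mul_le_mul_of_nonneg_right _ hF.le
    apply mul_le_mul_of_nonneg_left _ (by positivity)
    exact h2.trans (mul_le_mul_of_nonneg_left h3 (by positivity))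
  have h5 : mulHeight ![X, Z] ^ 3 * mulHeight ![X, Z] ^ 4 ≤ mulHeight ![X, Z] ^ 3 *
      ((Nat.card (Fin 2) : ℝ) ^ w * ((Nat.card (Fin 4 × Fin 6) : ℝ) ^ w * mulHeight L) *
        mulHeight₁ m ^ 5 * mulHeight FG) := by
    calc mulHeight ![X, Z] ^ 3 * mulHeight ![X, Z] ^ 4 = mulHeight ![X, Z] ^ 7 := by ring
      _ ≤ _ := h4
      _ = _ := by ring
  exact le_of_mul_le_mul_left h5 (pow_pos hp 3)

end Pool.Agent.LibTP50
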