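import Mathlib

/-!
Task HB: the double of the point of abscissa `t` has a large height if `m` has.
-/

open Height

namespace Pool.Agent.LibTP50

open MvPolynomial in
theorem height_first (K : Type) [Field K] [NumberField K] (t : K) (h0 : t ≠ 0) (h1 : t ≠ 1) :
    ∃ c : ℝ, 0 < c ∧ ∀ m : K, c * mulHeight₁ m ^ 2 ≤
      mulHeight ![(t ^ 2 - m) ^ 2, 4 * t * (t - 1) * (t - m)] := by
  set s : K := t * (t - 1) with hs
  have hs0 : s ≠ 0 := mul_ne_zero h0 (sub_ne_zero.2 h1)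
  set α : Fin 2 × Fin 2 → K := fun a => ![![1, -3 * t ^ 4 / (4 * s ^ 2) + t ^ 6 / (4 * s ^ 3)],
    ![0, 1 / (4 * s ^ 3)]] a.1 a.2 with hα
  set β : Fin 2 × Fin 2 → K := fun a => ![![2 * t ^ 2 - 3 * t ^ 4 / s + t ^ 6 / s ^ 2,
      -(-3 * t ^ 4 / (4 * s ^ 2) + t ^ 6 / (4 * s ^ 3)) * t ^ 2 - t ^ 6 / (4 * s ^ 2)],
    ![1 / s ^ 2, -(t ^ 2 / (4 * s ^ 3)) - 1 / (4 * s ^ 2)]] a.1 a.2 with hβ
  set q : Fin 2 × Fin 2 → MvPolynomial (Fin 2) K := fun a =>
    C (α a) * X 0 + C (β a) * X 1 with hq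
  have hom : ∀ a, (q a).IsHomogeneous 1 := fun a =>
    (isHomogeneous_C_mul_X _ _).add (isHomogeneous_C_mul_X _ _)
  obtain ⟨c, hc0, hc⟩ := mulHeight_eval_ge' (K := K) (M := 1) (N := 2) hom
  refine ⟨c, hc0, fun m => ?_⟩
  set p : Fin 2 → MvPolynomial (Fin 2) K := ![(C (t ^ 2) * X 1 - X 0) ^ 2,
    C (4 * t * (t - 1)) * (C t * X 1 - X 0) * X 1] with hp
  have e0 : eval ![m, 1] (p 0) = (t ^ 2 - m) ^ 2 := by simp [hp]
  have e1 : eval ![m, 1] (p 1) = 4 * t * (t - 1) * (t - m) := by simp [hp]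
  have h := hc p (x := ![m, 1]) (by
    intro k
    rw [Fin.sum_univ_two, e0, e1]
    have hqe : ∀ a, eval ![m, 1] (q a) = α a * m + β a := by
      intro a
      simp [hq]
    rw [hqe, hqe]
    fin_cases k
    · simp only [hα, hβ, Fin.zero_eta, Matrix.cons_val_zero, Matrix.cons_val_one]
      have h4 : 4 * t * (t - 1) * (t - m) = 4 * s * (t - m) := by rw [hs]; ring
      rw [h4]
      have ht : s = t ^ 2 - t := by rw [hs]; ring
      have key : s ^ 2 * m ^ 3 = s ^ 2 * ((1 * m + (2 * t ^ 2 - 3 * t ^ 4 / s + t ^ 6 / s ^ 2)) *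
          (t ^ 2 - m) ^ 2 + ((-3 * t ^ 4 / (4 * s ^ 2) + t ^ 6 / (4 * s ^ 3)) * m +
          (-(-3 * t ^ 4 / (4 * s ^ 2) + t ^ 6 / (4 * s ^ 3)) * t ^ 2 - t ^ 6 / (4 * s ^ 2))) *
          (4 * s * (t - m))) := by
        field_simp
        rw [ht]
        ring
      exact (mul_left_cancel₀ (pow_ne_zero 2 hs0) key).symm
    · simp only [hα, hβ, Fin.mk_one, Matrix.cons_val_zero, Matrix.cons_val_one]
      have h4 : 4 * t * (t - 1) * (t - m) = 4 * s * (t - m) := by rw [hs]; ring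
      rw [h4]
      have ht : s = t ^ 2 - t := by rw [hs]; ring
      have key : s ^ 2 * (1 : K) ^ (1 + 2) = s ^ 2 * ((0 * m + 1 / s ^ 2) * (t ^ 2 - m) ^ 2 +
          (1 / (4 * s ^ 3) * m + (-(t ^ 2 / (4 * s ^ 3)) - 1 / (4 * s ^ 2))) *
          (4 * s * (t - m))) := by
        field_simp
        rw [ht]
        ring
      exact (mul_left_cancel₀ (pow_ne_zero 2 hs0) key).symm)
  have e : (fun j => eval ![m, 1] (p j)) = ![(t ^ 2 - m) ^ 2, 4 * t * (t - 1) * (t - m)] := by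
    funext j
    fin_cases j
    · exact e0
    · exact e1
  rw [e] at h
  rw [mulHeight₁_eq_mulHeight]
  exact h

end Pool.Agent.LibTP50
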