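import Pool.Agent.LibTP50.Base
import Pool.Agent.LibTP50.HA
import Pool.Agent.LibTP50.HB

/-!
Task HC: the point of abscissa `κ t` of `y ^ 2 = x (x - κ) (x - κ m)` is not torsion, for all but
finitely many `m`.
-/

open scoped Classical
open Height WeierstrassCurve Pool.Agent.LibBH2 Pool.Agent.LibIG50

namespace Pool.Agent.LibTP50

namespace HCaux

variable {K : Type} [Field K]

theorem eqn {κ m x y : K} (h : (tl κ m).toAffine.Nonsingular x y) :
    y ^ 2 = x * (x - κ) * (x - κ * m) := by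
  have h1 := h.1
  rw [Affine.equation_iff] at h1
  simp only [tl] at h1
  linear_combination h1

theorem negY_eq (κ m x y : K) : (tl κ m).toAffine.negY x y = -y := by
  simp [Affine.negY, tl]

theorem addX_eq (κ m x1 x2 l : K) :
    (tl κ m).toAffine.addX x1 x2 l = l ^ 2 + κ * (1 + m) - x1 - x2 := by
  simp only [Affine.addX, tl]
  ring

/-- the abscissa of the double of a point -/
theorem dbl_x [CharZero K] {κ m x1 y1 : K} {h1 : (tl κ m).toAffine.Nonsingular x1 y1}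
    (hy : y1 ≠ 0) : ∃ (x3 y3 : K) (h3 : (tl κ m).toAffine.Nonsingular x3 y3),
    Affine.Point.some x1 y1 h1 + Affine.Point.some x1 y1 h1 = Affine.Point.some x3 y3 h3 ∧
    x3 * (4 * y1 ^ 2) = (x1 ^ 2 - κ ^ 2 * m) ^ 2 := by
  have hne : y1 ≠ (tl κ m).toAffine.negY x1 y1 := by
    rw [negY_eq]
    intro h5
    apply hy
    have h6 : (2 : K) * y1 = 0 := by linear_combination h5
    exact (mul_eq_zero.mp h6).resolve_left two_ne_zero
  refine ⟨_, _, _, Affine.Point.add_self_of_Y_ne hne, ?_⟩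
  rw [addX_eq, Affine.slope_of_Y_ne rfl hne, negY_eq]
  simp only [tl]
  have h5 := eqn h1
  have h7 : y1 - -y1 ≠ 0 := by
    rw [sub_neg_eq_add, ← two_mul]
    exact mul_ne_zero two_ne_zero hy
  have h8 : ((3 * x1 ^ 2 + 2 * -(κ * (1 + m)) * x1 + κ ^ 2 * m - 0 * y1) / (y1 - -y1)) ^ 2 *
      (4 * y1 ^ 2) = (3 * x1 ^ 2 - 2 * (κ * (1 + m)) * x1 + κ ^ 2 * m) ^ 2 := by
    rw [div_pow, show 4 * y1 ^ 2 = (y1 - -y1) ^ 2 by ring, div_mul_cancel₀ _ (pow_ne_zero 2 h7)]
    ring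
  calc (((3 * x1 ^ 2 + 2 * -(κ * (1 + m)) * x1 + κ ^ 2 * m - 0 * y1) / (y1 - -y1)) ^ 2 +
        κ * (1 + m) - x1 - x1) * (4 * y1 ^ 2)
      = ((3 * x1 ^ 2 + 2 * -(κ * (1 + m)) * x1 + κ ^ 2 * m - 0 * y1) / (y1 - -y1)) ^ 2 *
          (4 * y1 ^ 2) + (κ * (1 + m) - x1 - x1) * (4 * y1 ^ 2) := by ring
    _ = _ := by
        rw [h8, h5]
        ring

section heights

variable [NumberField K]

/-- height of the abscissa relative to `κ` -/
noncomputable def hx (κ m : K) (S : (tl κ m).toAffine.Point) : ℝ :=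
  match S with
  | 0 => 1
  | Affine.Point.some x _ _ => mulHeight ![x, κ]

theorem hx_zero (κ m : K) : hx κ m 0 = 1 := rfl

theorem hx_some {κ m x y : K} (h : (tl κ m).toAffine.Nonsingular x y) :
    hx κ m (Affine.Point.some x y h) = mulHeight ![x, κ] := rfl

theorem one_le_hx (κ m : K) (S : (tl κ m).toAffine.Point) : 1 ≤ hx κ m S := by
  rcases S with _ | ⟨x, y, h⟩
  · exact le_of_eq rfl
  · exact one_le_mulHeight _

/-- height of the double of an affine point -/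
theorem hx_two_some {κ m x y : K} (hκ : κ ≠ 0) (h : (tl κ m).toAffine.Nonsingular x y) :
    hx κ m (2 • Affine.Point.some x y h) =
      mulHeight ![(x ^ 2 - m * κ ^ 2) ^ 2, 4 * x * κ * (x - κ) * (x - m * κ)] := by
  have he := eqn h
  have h2 : 4 * x * κ * (x - κ) * (x - m * κ) = 4 * y ^ 2 * κ := by
    rw [he]; ring
  by_cases hy : y = 0
  · have h3 : 2 • Affine.Point.some x y h = 0 := by
      rw [two_nsmul]
      refine Affine.Point.add_self_of_Y_eq ?_
      rw [negY_eq, hy, neg_zero]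
    rw [h3, hx_zero, h2, hy]
    have e : (4 : K) * 0 ^ 2 * κ = 0 := by ring
    rw [e, mulHeight_cons_cons_zero, mulHeight_eq_one_of_subsingleton]
  · obtain ⟨x3, y3, h3, he3, hx3⟩ := dbl_x (h1 := h) hy
    rw [two_nsmul, he3, hx_some, h2]
    have h4 : (4 : K) * y ^ 2 ≠ 0 := mul_ne_zero (by norm_num) (pow_ne_zero 2 hy)
    rw [← mulHeight_smul_eq_mulHeight ![x3, κ] h4]
    congr 1
    ext i
    fin_cases i
    · simp
      linear_combination hx3
    · simp

theorem mul_ineq {C : ℝ} (hC1 : 1 ≤ C) {κ m : K} (hκ : κ ≠ 0)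
    (hC : ∀ X Z : K, ![X, Z] ≠ 0 → mulHeight ![X, Z] ^ 4 ≤ C * mulHeight₁ m ^ 5 *
        mulHeight ![(X ^ 2 - m * Z ^ 2) ^ 2, 4 * X * Z * (X - Z) * (X - m * Z)])
    (S : (tl κ m).toAffine.Point) :
    hx κ m S ^ 4 ≤ C * mulHeight₁ m ^ 5 * hx κ m (2 • S) := by
  rcases S with _ | ⟨x, y, h⟩
  · have e : (2 • (0 : (tl κ m).toAffine.Point)) = 0 := smul_zero 2
    have h0 : hx κ m (0 : (tl κ m).toAffine.Point) = 1 := rfl
    change hx κ m 0 ^ 4 ≤ C * mulHeight₁ m ^ 5 * hx κ m (2 • 0)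
    rw [e, h0]
    have h1 : 1 ≤ mulHeight₁ m ^ 5 := one_le_pow₀ (one_le_mulHeight₁ m)
    nlinarith
  · rw [hx_two_some hκ h, hx_some]
    apply hC
    intro h0
    have := congrFun h0 1
    simp at this
    exact hκ this

theorem not_torsion {B : ℝ} (hB : 1 ≤ B) {κ m : K}
    (h : ∀ S : (tl κ m).toAffine.Point, hx κ m S ^ 4 ≤ B * hx κ m (2 • S))
    {S : (tl κ m).toAffine.Point} (hS : B < hx κ m S ^ 3) : ¬ IsOfFinAddOrder S := by
  have hB0 : 0 < B := by linarith
  have key : ∀ T : (tl κ m).toAffine.Point, B < hx κ m T ^ 3 → hx κ m T < hx κ m (2 • T) := by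
    intro T hT
    have h1 := h T
    have h2 : 0 < hx κ m T := by linarith [one_le_hx κ m T]
    have h3 : B * hx κ m T < B * hx κ m (2 • T) := by
      calc B * hx κ m T < hx κ m T ^ 3 * hx κ m T := by gcongr
        _ = hx κ m T ^ 4 := by ring
        _ ≤ _ := h1
    exact lt_of_mul_lt_mul_left h3 hB0.le
  have hmain : ∀ j : ℕ, B < hx κ m ((2 ^ j) • S) ^ 3 := by
    intro j
    induction j with
    | zero => simpa using hS
    | succ j ih =>
      have h1 := key _ ih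
      have h2 : (2 ^ (j + 1)) • S = 2 • ((2 ^ j) • S) := by
        rw [smul_smul]; congr 1; ring
      rw [h2]
      have h3 : 0 < hx κ m ((2 ^ j) • S) := by linarith [one_le_hx κ m ((2 ^ j) • S)]
      refine ih.trans ?_
      gcongr
  have hmono : StrictMono (fun j : ℕ => hx κ m ((2 ^ j) • S)) := by
    apply strictMono_nat_of_lt_succ
    intro j
    have h1 := key _ (hmain j)
    have h2 : (2 ^ (j + 1)) • S = 2 • ((2 ^ j) • S) := by
      rw [smul_smul]; congr 1; ring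
    rw [h2]
    exact h1
  intro hfin
  obtain ⟨n, hn, hnS⟩ := isOfFinAddOrder_iff_nsmul_eq_zero.mp hfin
  have hne : NeZero n := ⟨by omega⟩
  obtain ⟨i, j, hij, he⟩ := Finite.exists_ne_map_eq_of_infinite
    (fun j : ℕ => ((2 ^ j : ℕ) : ZMod n))
  have hmod : (2 ^ i) % n = (2 ^ j) % n := (ZMod.natCast_eq_natCast_iff' _ _ _).mp he
  have hred : ∀ k : ℕ, k • S = (k % n) • S := by
    intro k
    conv_lhs => rw [← Nat.div_add_mod k n]
    rw [add_smul, mul_comm, mul_smul, hnS, smul_zero, zero_add]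
  have : (2 ^ i) • S = (2 ^ j) • S := by
    rw [hred (2 ^ i), hred (2 ^ j), hmod]
  exact hij (hmono.injective (by simp only [this]))

end heights

end HCaux

theorem exists_nontorsion (K : Type) [Field K] [NumberField K] (t : K) (h0 : t ≠ 0) (h1 : t ≠ 1) :
    ∃ S : Set K, S.Finite ∧ ∀ m : K, m ∉ S → m ≠ 0 → m ≠ 1 → m ≠ t → ∀ κ : K, κ ≠ 0 →
      ∀ (y : K) (h : (tl κ m).toAffine.Nonsingular (κ * t) y),
        ¬ IsOfFinAddOrder (Affine.Point.some (κ * t) y h : (tl κ m).toAffine.Point) := by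
  obtain ⟨C, hC1, hC⟩ := height_dup K
  obtain ⟨c, hc0, hc⟩ := height_first K t h0 h1
  refine ⟨{m : K | mulHeight₁ m ≤ C / c ^ 3}, NumberField.finite_setOfPred_mulHeight₁_le K _, ?_⟩
  intro m hm hm0 hm1 hmt κ hκ y h
  have hm' : C / c ^ 3 < mulHeight₁ m := not_le.mp hm
  have hH : 0 < mulHeight₁ m := mulHeight₁_pos m
  have hH1 : 1 ≤ mulHeight₁ m ^ 5 := one_le_pow₀ (one_le_mulHeight₁ m)
  have hB : 1 ≤ C * mulHeight₁ m ^ 5 := by nlinarith
  have hineq := HCaux.mul_ineq hC1 (κ := κ) (m := m) hκ (fun X Z hXZ => hC m X Z hm0 hm1 hXZ)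
  have h2 : HCaux.hx κ m (2 • Affine.Point.some (κ * t) y h) =
      mulHeight ![(t ^ 2 - m) ^ 2, 4 * t * (t - 1) * (t - m)] := by
    rw [HCaux.hx_two_some hκ h, ← mulHeight_smul_eq_mulHeight
      ![(t ^ 2 - m) ^ 2, 4 * t * (t - 1) * (t - m)] (pow_ne_zero 4 hκ)]
    congr 1
    ext i
    fin_cases i
    · simp
      ring
    · simp
      ring
  have h3 : C * mulHeight₁ m ^ 5 < HCaux.hx κ m (2 • Affine.Point.some (κ * t) y h) ^ 3 := by
    rw [h2]
    have h4 := hc m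
    have h5 : 0 ≤ c * mulHeight₁ m ^ 2 := by positivity
    calc C * mulHeight₁ m ^ 5 < c ^ 3 * mulHeight₁ m * mulHeight₁ m ^ 5 := by
          have : C < c ^ 3 * mulHeight₁ m := by
            rw [div_lt_iff₀ (by positivity)] at hm'
            linarith
          gcongr
      _ = (c * mulHeight₁ m ^ 2) ^ 3 := by ring
      _ ≤ _ := by gcongr
  have h4 := HCaux.not_torsion hB hineq h3
  intro hfin
  exact h4 (hfin.nsmul (n := 2))

end Pool.Agent.LibTP50
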