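import Pool.Agent.LibTP50.Base2
import Pool.Agent.LibTP50.HC

/-!
Task HC2: the point of abscissa `κ t` of `y ^ 2 = (x - κ m) (x ^ 2 + κ a x + κ ^ 2 b)` is not
torsion, for all but finitely many `m`.
-/

open scoped Classical
open Height WeierstrassCurve Pool.Agent.LibBH2 Pool.Agent.LibIG50

namespace Pool.Agent.LibTP50

/-- the change of coordinates -/
theorem hc2_rel {L : Type} [Field L] {a b m κ e₁ δ : L} (hδ : δ ≠ 0)
    (he : e₁ ^ 2 + a * e₁ + b = 0) (hδe : δ = -a - 2 * e₁) (W : WeierstrassCurve L)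
    (hW : W = cq (κ * m) (κ * a) (κ ^ 2 * b)) :
    TD1.Rel W (tl (κ * δ) ((m - e₁) / δ)) 1 (-(κ * e₁)) 0 0 := by
  have hb : b = -e₁ ^ 2 - a * e₁ := by linear_combination he
  subst hW
  refine ⟨one_ne_zero, ?_, ?_, ?_, ?_, ?_⟩
  · simp [cq, tl]
  · simp only [cq, tl]
    field_simp
    rw [hδe]; ring
  · simp [cq, tl]
  · simp only [cq, tl]
    field_simp
    rw [hδe, hb]; ring
  · simp only [cq, tl]
    field_simp
    rw [hδe, hb]; ring

/-- the statement over a field which contains a root of the quadratic polynomial -/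
theorem hc2_core (K L : Type) [Field K] [Field L] [NumberField L] [Algebra K L] (a b t : K)
    (hd : a ^ 2 - 4 * b ≠ 0) (ht : t ^ 2 + a * t + b ≠ 0) (e₁ A B : L)
    (hA : A = algebraMap K L a) (hB : B = algebraMap K L b)
    (hroot : e₁ ^ 2 + A * e₁ + B = 0) :
    ∃ S : Set K, S.Finite ∧ ∀ m : K, m ∉ S → m ^ 2 + a * m + b ≠ 0 → m ≠ t → ∀ κ : K, κ ≠ 0 →
      ∀ (y : K) (h : (cq (κ * m) (κ * a) (κ ^ 2 * b)).toAffine.Nonsingular (κ * t) y),
        ¬ IsOfFinAddOrder (Affine.Point.some (κ * t) y h :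
          (cq (κ * m) (κ * a) (κ ^ 2 * b)).toAffine.Point) := by
  have inj := (algebraMap K L).injective
  set δ : L := -A - 2 * e₁ with hδdef
  have hδ2 : δ ^ 2 = A ^ 2 - 4 * B := by
    rw [hδdef]; linear_combination 4 * hroot
  have hδ : δ ≠ 0 := by
    intro h0
    apply hd
    apply inj
    rw [map_zero, map_sub, map_mul, map_pow, map_ofNat, ← hA, ← hB, ← hδ2, h0]
    ring
  -- values of the quadratic polynomial
  have hval : ∀ x : K, x ^ 2 + a * x + b ≠ 0 →
      (algebraMap K L x - e₁) / δ ≠ 0 ∧ (algebraMap K L x - e₁) / δ ≠ 1 := by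
    intro x hx
    have hfac : algebraMap K L (x ^ 2 + a * x + b) =
        (algebraMap K L x - e₁) * (algebraMap K L x - e₁ - δ) := by
      rw [map_add, map_add, map_mul, map_pow, ← hA, ← hB, hδdef]
      linear_combination hroot
    have hne : algebraMap K L (x ^ 2 + a * x + b) ≠ 0 := by
      intro h0
      exact hx (inj (by rw [h0, map_zero]))
    rw [hfac] at hne
    constructor
    · exact div_ne_zero (left_ne_zero_of_mul hne) hδ
    · intro h1
      rw [div_eq_one_iff_eq hδ] at h1
      exact right_ne_zero_of_mul hne (by rw [h1, sub_self])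
  obtain ⟨ht0, ht1⟩ := hval t ht
  obtain ⟨S, hS, hmain⟩ := exists_nontorsion L ((algebraMap K L t - e₁) / δ) ht0 ht1
  have hinj : Function.Injective (fun m : K => (algebraMap K L m - e₁) / δ) := by
    intro m m' hmm
    simp only at hmm
    have h1 : algebraMap K L m - e₁ = algebraMap K L m' - e₁ := by
      field_simp at hmm
      exact hmm
    exact inj (sub_left_injective h1)
  refine ⟨(fun m : K => (algebraMap K L m - e₁) / δ) ⁻¹' S, hS.preimage hinj.injOn, ?_⟩
  intro m hmS hm hmt κ hκ y h hfin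
  obtain ⟨hm0, hm1⟩ := hval m hm
  have hmt' : (algebraMap K L m - e₁) / δ ≠ (algebraMap K L t - e₁) / δ :=
    fun h0 => hmt (hinj h0)
  have hκL : algebraMap K L κ ≠ 0 := fun h0 => hκ (inj (by rw [h0, map_zero]))
  have hκδ : algebraMap K L κ * δ ≠ 0 := mul_ne_zero hκL hδ
  have hbc : ((cq (κ * m) (κ * a) (κ ^ 2 * b))⁄L) =
      cq (algebraMap K L κ * algebraMap K L m) (algebraMap K L κ * A)
        (algebraMap K L κ ^ 2 * B) := by
    simp [cq, WeierstrassCurve.baseChange, WeierstrassCurve.map, hA, hB]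
  have R := hc2_rel (a := A) (b := B) (m := algebraMap K L m) (κ := algebraMap K L κ) (e₁ := e₁)
    (δ := δ) hδ hroot rfl _ hbc
  have hfin1 : IsOfFinAddOrder (constHom L _ (Affine.Point.some (κ * t) y h)) :=
    AddMonoidHom.isOfFinAddOrder (constHom L _) hfin
  have hfin' : IsOfFinAddOrder (TD1.vc R (constHom L _ (Affine.Point.some (κ * t) y h))) :=
    AddMonoidHom.isOfFinAddOrder (TD1.vc R) hfin1
  have hx : (1 : L) ^ 2 * algebraMap K L (κ * t) + -(algebraMap K L κ * e₁) =
      (algebraMap K L κ * δ) * ((algebraMap K L t - e₁) / δ) := by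
    rw [map_mul]
    field_simp
    ring
  have hgen : ∀ (x y' : L) (h' : (tl (algebraMap K L κ * δ)
      ((algebraMap K L m - e₁) / δ)).toAffine.Nonsingular x y'),
      x = (algebraMap K L κ * δ) * ((algebraMap K L t - e₁) / δ) →
      ¬ IsOfFinAddOrder (Affine.Point.some x y' h' : (tl (algebraMap K L κ * δ)
      ((algebraMap K L m - e₁) / δ)).toAffine.Point) := by
    intro x y' h' hx
    subst hx
    exact hmain _ hmS hm0 hm1 hmt' _ hκδ y' h'
  exact hgen _ _ _ hx hfin'

theorem exists_nontorsion2 (K : Type) [Field K] [NumberField K] (a b t : K)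
    (hd : a ^ 2 - 4 * b ≠ 0) (ht : t ^ 2 + a * t + b ≠ 0) :
    ∃ S : Set K, S.Finite ∧ ∀ m : K, m ∉ S → m ^ 2 + a * m + b ≠ 0 → m ≠ t → ∀ κ : K, κ ≠ 0 →
      ∀ (y : K) (h : (cq (κ * m) (κ * a) (κ ^ 2 * b)).toAffine.Nonsingular (κ * t) y),
        ¬ IsOfFinAddOrder (Affine.Point.some (κ * t) y h :
          (cq (κ * m) (κ * a) (κ ^ 2 * b)).toAffine.Point) := by
  -- a root of the quadratic polynomial
  obtain ⟨e, he⟩ : ∃ e : AlgebraicClosure K, e ^ 2 + algebraMap K _ a * e + algebraMap K _ b = 0 := by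
    have hdeg : (Polynomial.C (1 : AlgebraicClosure K) * Polynomial.X ^ 2 +
        Polynomial.C (algebraMap K _ a) * Polynomial.X + Polynomial.C (algebraMap K _ b)).degree
        ≠ 0 := by
      rw [Polynomial.degree_quadratic one_ne_zero]
      norm_num
    obtain ⟨e, he⟩ := IsAlgClosed.exists_root _ hdeg
    refine ⟨e, ?_⟩
    simpa using he
  have hint : IsIntegral K e := Algebra.IsIntegral.isIntegral e
  let L := IntermediateField.adjoin K {e}
  have : FiniteDimensional K L := IntermediateField.adjoin.finiteDimensional hint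
  have : NumberField L := NumberField.of_module_finite K L
  refine hc2_core K L a b t hd ht ⟨e, IntermediateField.mem_adjoin_simple_self K e⟩ _ _ rfl rfl ?_
  apply (algebraMap L (AlgebraicClosure K)).injective
  rw [map_zero, map_add, map_add, map_mul, map_pow, ← IsScalarTower.algebraMap_apply,
    ← IsScalarTower.algebraMap_apply]
  exact he

end Pool.Agent.LibTP50
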