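import Pool.Agent.LibTP50.Base

/-!
Task PL: places of a number field and the `j`-invariant of `y ^ 2 = x (x - κ) (x - κ m)`.
-/

open scoped Classical
open WeierstrassCurve Pool.Agent.LibBH2 Pool.Agent.LibIG50 IsDedekindDomain NumberField

namespace Pool.Agent.LibTP50

variable (K : Type) [Field K] [NumberField K]

/-- a place above a prime number -/
theorem place_above_PL (p : Nat.Primes) : ∃ v : HeightOneSpectrum (𝓞 K),
    ((p : ℕ) : 𝓞 K) ∈ v.asIdeal := by
  have hp : Prime (((p : ℕ) : ℤ)) := Nat.prime_iff_prime_int.mp p.2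
  have : (Ideal.span {((p : ℕ) : ℤ)}).IsPrime :=
    (Ideal.span_singleton_prime hp.ne_zero).mpr hp
  obtain ⟨Q, hQ, hQ'⟩ := Ideal.exists_ideal_over_prime_of_isIntegral_of_isDomain (S := 𝓞 K)
    (Ideal.span {((p : ℕ) : ℤ)}) (by
      rw [(RingHom.injective_iff_ker_eq_bot _).mp
        (FaithfulSMul.algebraMap_injective ℤ (𝓞 K))]
      exact bot_le)
  have hpQ : ((p : ℕ) : 𝓞 K) ∈ Q := by
    have h1 : ((p : ℕ) : ℤ) ∈ Q.comap (algebraMap ℤ (𝓞 K)) := by
      rw [hQ']; exact Ideal.mem_span_singleton_self _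
    rw [Ideal.mem_comap] at h1
    simpa using h1
  refine ⟨⟨Q, hQ, ?_⟩, hpQ⟩
  intro hbot
  rw [hbot, Ideal.mem_bot] at hpQ
  have : ((p : ℕ) : 𝓞 K) ≠ 0 := by
    exact_mod_cast p.2.ne_zero
  exact this hpQ

/-- there are infinitely many places -/
theorem exists_place (S : Set (HeightOneSpectrum (𝓞 K))) (hS : S.Finite) :
    ∃ v : HeightOneSpectrum (𝓞 K), v ∉ S := by
  by_contra hcon
  push Not at hcon
  have hfin : Finite (HeightOneSpectrum (𝓞 K)) :=
    Set.finite_univ_iff.mp (hS.subset fun v _ => hcon v)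
  choose f hf using place_above_PL K
  have hinj : Function.Injective f := by
    intro p q hpq
    by_contra hne
    have hcop : Nat.Coprime (p : ℕ) (q : ℕ) := by
      rw [Nat.coprime_primes p.2 q.2]
      exact fun h => hne (Subtype.ext h)
    have h1 : IsCoprime (((p : ℕ) : ℤ)) ((q : ℕ) : ℤ) := Nat.isCoprime_iff_coprime.mpr hcop
    obtain ⟨a, b, hab⟩ := h1
    have h2 : (1 : 𝓞 K) ∈ (f p).asIdeal := by
      have h3 : (1 : 𝓞 K) = (a : 𝓞 K) * ((p : ℕ) : 𝓞 K) + (b : 𝓞 K) * ((q : ℕ) : 𝓞 K) := by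
        exact_mod_cast congrArg (Int.cast : ℤ → 𝓞 K) hab.symm
      rw [h3]
      apply Ideal.add_mem
      · exact Ideal.mul_mem_left _ _ (hf p)
      · rw [hpq]
        exact Ideal.mul_mem_left _ _ (hf q)
    exact (f p).isPrime.ne_top ((Ideal.eq_top_iff_one _).mpr h2)
  have hff : Finite Nat.Primes := Finite.of_injective f hinj
  exact not_finite Nat.Primes

/-- a nonzero element is a unit at almost all places -/
theorem finite_not_unit (x : K) (hx : x ≠ 0) :
    {v : HeightOneSpectrum (𝓞 K) | v.valuation K x ≠ 1}.Finite := by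
  refine ((HeightOneSpectrum.Support.finite (𝓞 K) x).union
    (HeightOneSpectrum.Support.finite (𝓞 K) x⁻¹)).subset ?_
  intro v hv
  rcases lt_or_gt_of_ne hv with h | h
  · right
    have hx' : v.valuation K x ≠ 0 := (Valuation.ne_zero_iff _).mpr hx
    have : 1 < v.valuation K x⁻¹ := by
      rw [map_inv₀]
      exact (one_lt_inv₀ (zero_lt_iff.mpr hx')).mpr h
    exact this
  · left
    exact h

/-- multiplicative reduction -/
theorem j_pole (v : HeightOneSpectrum (𝓞 K)) (htwo : v.valuation K 2 = 1) (κ m : K) (hκ : κ ≠ 0)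
    (hm : 1 < v.valuation K m) : 1 < v.valuation K ((tl κ m).c₄ ^ 3 / (tl κ m).Δ) := by
  have hm0 : m ≠ 0 := by
    intro h; rw [h, map_zero] at hm; exact absurd hm (by simp)
  have hm1 : m - 1 ≠ 0 := by
    intro h
    rw [sub_eq_zero.mp h, map_one] at hm
    exact absurd hm (lt_irrefl _)
  have hc4 : (tl κ m).c₄ = 16 * κ ^ 2 * (m ^ 2 - m + 1) := by
    simp only [WeierstrassCurve.c₄, WeierstrassCurve.b₂, WeierstrassCurve.b₄, tl]
    ring
  have hD : (tl κ m).Δ = 16 * κ ^ 6 * m ^ 2 * (m - 1) ^ 2 := by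
    simp only [WeierstrassCurve.Δ, WeierstrassCurve.b₂, WeierstrassCurve.b₄, WeierstrassCurve.b₆,
      WeierstrassCurve.b₈, tl]
    ring
  have hj : (tl κ m).c₄ ^ 3 / (tl κ m).Δ = 2 ^ 8 * (m ^ 2 - m + 1) ^ 3 / (m ^ 2 * (m - 1) ^ 2) := by
    rw [hc4, hD]
    field_simp
    ring
  set V := v.valuation K with hV
  have hvm0 : 0 < V m := zero_lt_one.trans hm
  have hv1 : V (m - 1) = V m := by
    have h1 : V (-1 : K) = 1 := by rw [Valuation.map_neg, map_one]
    rw [sub_eq_add_neg]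
    exact Valuation.map_add_eq_of_lt_left V (by rw [h1]; exact hm)
  have hv2 : V (m ^ 2 - m + 1) = V m ^ 2 := by
    have e1 : m ^ 2 - m + 1 = m * (m - 1) + 1 := by ring
    rw [e1, Valuation.map_add_eq_of_lt_left V, map_mul, hv1, sq]
    rw [map_mul, hv1, map_one]
    exact one_lt_mul'' hm hm
  rw [hj, map_div₀, map_mul, map_mul, map_pow, map_pow, map_pow, map_pow, htwo, one_pow, one_mul,
    hv1, hv2]
  have e2 : (V m ^ 2) ^ 3 / (V m ^ 2 * V m ^ 2) = V m ^ 2 := by
    have : V m ≠ 0 := hvm0.ne'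
    field_simp
  rw [e2]
  exact one_lt_pow₀ hm two_ne_zero

/-- the `j`-invariant is integral at almost all places -/
theorem j_integral (W : WeierstrassCurve K) :
    {v : HeightOneSpectrum (𝓞 K) | 1 < v.valuation K (W.c₄ ^ 3 / W.Δ)}.Finite :=
  HeightOneSpectrum.Support.finite (𝓞 K) _

end Pool.Agent.LibTP50
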