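import Pool.Agent.LibTP50.Base

/-!
Task RK: subgroups of rank at most two; rational points of order two.
-/

open scoped Classical
open WeierstrassCurve Pool.Agent.LibBH2 Pool.Agent.LibIG50

namespace Pool.Agent.LibTP50

theorem natAbs_smul_mem_RK {A : Type} [AddCommGroup A] {H : AddSubgroup A} {g : ℤ} {a : A}
    (h : g • a ∈ H) : g.natAbs • a ∈ H := by
  rcases Int.natAbs_eq g with h1 | h1
  · rw [h1, natCast_zsmul] at h; exact h
  · rw [h1, neg_smul, natCast_zsmul] at h
    exact (H.neg_mem_iff).mp h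

/-- a group of rank at most two is, up to torsion, generated by two elements of infinite order,
or it is a torsion group -/
theorem rank_le_two (A : Type) [AddCommGroup A] (hA : Module.rank ℤ A ≤ 2) :
    (∀ a : A, IsOfFinAddOrder a) ∨ ∃ p r : A, ¬ IsOfFinAddOrder p ∧ ¬ IsOfFinAddOrder r ∧
      ∀ a : A, ∃ n : ℕ, 0 < n ∧ n • a ∈ AddSubgroup.closure {p, r} := by
  by_cases htor : ∀ a : A, IsOfFinAddOrder a
  · exact Or.inl htor
  right
  push Not at htor
  obtain ⟨p, hp⟩ := htor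
  by_cases h1 : ∀ a : A, ∃ n : ℕ, 0 < n ∧ n • a ∈ AddSubgroup.closure {p}
  · refine ⟨p, p, hp, hp, fun a => ?_⟩
    obtain ⟨n, hn, h⟩ := h1 a
    refine ⟨n, hn, ?_⟩
    rwa [Set.insert_eq_of_mem (Set.mem_singleton p)]
  push Not at h1
  obtain ⟨r, hr⟩ := h1
  have hr' : ¬ IsOfFinAddOrder r := by
    intro h
    obtain ⟨n, hn, h2⟩ := isOfFinAddOrder_iff_nsmul_eq_zero.mp h
    exact hr n hn (h2 ▸ AddSubgroup.zero_mem _)
  refine ⟨p, r, hp, hr', ?_⟩
  by_contra hcon
  push Not at hcon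
  obtain ⟨a, ha⟩ := hcon
  have hli : LinearIndependent ℤ ![p, r, a] := by
    rw [Fintype.linearIndependent_iff]
    intro g hg
    rw [Fin.sum_univ_three] at hg
    simp only [Matrix.cons_val_zero, Matrix.cons_val_one, Matrix.cons_val] at hg
    have hpm : p ∈ AddSubgroup.closure ({p, r} : Set A) :=
      AddSubgroup.subset_closure (by simp)
    have hrm : r ∈ AddSubgroup.closure ({p, r} : Set A) :=
      AddSubgroup.subset_closure (by simp)
    have hpm1 : p ∈ AddSubgroup.closure ({p} : Set A) :=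
      AddSubgroup.subset_closure (by simp)
    have g2 : g 2 = 0 := by
      by_contra hne
      have h2 : g 2 • a ∈ AddSubgroup.closure ({p, r} : Set A) := by
        have : g 2 • a = -(g 0 • p + g 1 • r) := by
          rw [eq_neg_iff_add_eq_zero, add_comm]; exact hg
        rw [this]
        exact AddSubgroup.neg_mem _ (AddSubgroup.add_mem _ (AddSubgroup.zsmul_mem _ hpm _)
          (AddSubgroup.zsmul_mem _ hrm _))
      exact ha _ (Int.natAbs_pos.mpr hne) (natAbs_smul_mem_RK h2)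
    rw [g2, zero_smul, add_zero] at hg
    have g1 : g 1 = 0 := by
      by_contra hne
      have h2 : g 1 • r ∈ AddSubgroup.closure ({p} : Set A) := by
        have : g 1 • r = -(g 0 • p) := by
          rw [eq_neg_iff_add_eq_zero, add_comm]; exact hg
        rw [this]
        exact AddSubgroup.neg_mem _ (AddSubgroup.zsmul_mem _ hpm1 _)
      exact hr _ (Int.natAbs_pos.mpr hne) (natAbs_smul_mem_RK h2)
    rw [g1, zero_smul, add_zero] at hg
    have g0 : g 0 = 0 := by
      by_contra hne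
      apply hp
      rw [isOfFinAddOrder_iff_nsmul_eq_zero]
      refine ⟨(g 0).natAbs, Int.natAbs_pos.mpr hne, ?_⟩
      have h2 : g 0 • p ∈ (⊥ : AddSubgroup A) := by rw [hg]; exact AddSubgroup.zero_mem _
      exact (AddSubgroup.mem_bot).mp (natAbs_smul_mem_RK h2)
    intro i
    fin_cases i
    · exact g0
    · exact g1
    · exact g2
  have h3 := hli.cardinal_le_rank
  rw [Cardinal.mk_fin] at h3
  have h4 : ((3 : ℕ) : Cardinal) ≤ ((2 : ℕ) : Cardinal) := by
    refine h3.trans ?_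
    exact_mod_cast hA
  rw [Nat.cast_le] at h4
  omega

theorem two_tors_RK {K : Type} [Field K] [CharZero K] (W : WeierstrassCurve K)
    {x y : K} (h : W.toAffine.Nonsingular x y)
    (h2 : 2 • (Affine.Point.some x y h : W.toAffine.Point) = 0) :
    2 * y + W.a₁ * x + W.a₃ = 0 ∧ 4 * x ^ 3 + W.b₂ * x ^ 2 + 2 * W.b₄ * x + W.b₆ = 0 := by
  have h3 : (Affine.Point.some x y h : W.toAffine.Point) = -Affine.Point.some x y h := by
    rw [two_nsmul] at h2
    exact eq_neg_of_add_eq_zero_left h2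
  rw [Affine.Point.neg_some, Affine.Point.some.injEq] at h3
  have h4 : y = -y - W.a₁ * x - W.a₃ := h3.2
  have h5 : 2 * y + W.a₁ * x + W.a₃ = 0 := by linear_combination h4
  refine ⟨h5, ?_⟩
  have h6 := h.1
  rw [Affine.equation_iff] at h6
  have h7 : 4 * x ^ 3 + W.b₂ * x ^ 2 + 2 * W.b₄ * x + W.b₆ = (2 * y + W.a₁ * x + W.a₃) ^ 2 := by
    rw [WeierstrassCurve.b₂, WeierstrassCurve.b₄, WeierstrassCurve.b₆]
    linear_combination -4 * h6
  rw [h7, h5]; ring

/-- a Weierstrass curve with two different points of order two has three abscissas of points of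
order two, the first two being those of the given points -/
theorem roots_of_points {K : Type} [Field K] [CharZero K] (W : WeierstrassCurve K) [W.IsElliptic]
    (T₁ T₂ : W.toAffine.Point) (h1 : T₁ ≠ 0) (h2 : T₂ ≠ 0) (h12 : T₁ ≠ T₂) (h1' : 2 • T₁ = 0)
    (h2' : 2 • T₂ = 0) : ∃ e₁ e₂ e₃ : K, Roots W e₁ e₂ e₃ := by
  rcases T₁ with _ | ⟨x1, y1, n1⟩
  · exact absurd rfl h1
  rcases T₂ with _ | ⟨x2, y2, n2⟩
  · exact absurd rfl h2
  obtain ⟨a1, b1⟩ := two_tors_RK W n1 h1'
  obtain ⟨a2, b2⟩ := two_tors_RK W n2 h2'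
  have hx : x1 ≠ x2 := by
    intro h
    subst h
    apply h12
    have h3 : (2 : K) * (y1 - y2) = 0 := by linear_combination a1 - a2
    have h4 : y1 = y2 := sub_eq_zero.mp ((mul_eq_zero.mp h3).resolve_left two_ne_zero)
    subst h4
    rfl
  set e3 : K := -W.b₂ / 4 - x1 - x2 with he3
  have hb2 : W.b₂ = -4 * (x1 + x2 + e3) := by rw [he3]; ring
  have hx' : x1 - x2 ≠ 0 := sub_ne_zero.mpr hx
  have hb4 : W.b₄ = 2 * (x1 * x2 + x1 * e3 + x2 * e3) := by
    have h3 : (x1 - x2) * (2 * W.b₄ - 4 * (x1 * x2 + x1 * e3 + x2 * e3)) = 0 := by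
      rw [hb2] at b1 b2
      linear_combination b1 - b2
    have h4 := (mul_eq_zero.mp h3).resolve_left hx'
    have h5 : (2 : K) * (W.b₄ - 2 * (x1 * x2 + x1 * e3 + x2 * e3)) = 0 := by
      linear_combination h4
    exact sub_eq_zero.mp ((mul_eq_zero.mp h5).resolve_left two_ne_zero)
  have hb6 : W.b₆ = -4 * (x1 * x2 * e3) := by
    rw [hb2, hb4] at b1
    linear_combination b1
  have hb8 : W.b₈ = (W.b₂ * W.b₆ - W.b₄ ^ 2) / 4 := by
    have := W.b_relation
    field_simp
    linear_combination this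
  have hΔ : W.Δ = 16 * ((x1 - x2) * (x1 - e3) * (x2 - e3)) ^ 2 := by
    rw [WeierstrassCurve.Δ, hb8, hb2, hb4, hb6]
    ring
  have hΔ0 : W.Δ ≠ 0 := W.isUnit_Δ.ne_zero
  refine ⟨x1, x2, e3, hx, ?_, ?_, ?_⟩
  · intro h
    apply hΔ0
    rw [hΔ, h]; ring
  · intro h
    apply hΔ0
    rw [hΔ, h]; ring
  · intro x
    rw [hb2, hb4, hb6]; ring

end Pool.Agent.LibTP50
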