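import Pool.Agent.LibTP50.Base2
import Pool.Agent.LibTP50.PL
import Pool.Agent.LibTP50.RK

/-!
Task PL2: the `j`-invariant of `y ^ 2 = (x - κ m) (x ^ 2 + κ a x + κ ^ 2 b)`; rational points of
order two.
-/

open scoped Classical
open WeierstrassCurve Pool.Agent.LibBH2 Pool.Agent.LibIG50 IsDedekindDomain NumberField

namespace Pool.Agent.LibTP50

/-- multiplicative reduction -/
theorem j_pole2 (K : Type) [Field K] [NumberField K] (v : HeightOneSpectrum (𝓞 K))
    (htwo : v.valuation K 2 = 1) (a b κ m : K) (ha : v.valuation K a ≤ 1)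
    (hb : v.valuation K b ≤ 1) (hd : v.valuation K (a ^ 2 - 4 * b) = 1) (hκ : κ ≠ 0)
    (hm : 1 < v.valuation K m) :
    1 < v.valuation K ((cq (κ * m) (κ * a) (κ ^ 2 * b)).c₄ ^ 3 /
      (cq (κ * m) (κ * a) (κ ^ 2 * b)).Δ) := by
  set V := v.valuation K with hV
  have hvm0 : 0 < V m := zero_lt_one.trans hm
  have hsq : V m < V m ^ 2 := by
    rw [sq]
    exact lt_mul_of_one_lt_left hvm0 hm
  have hm2 : V (m ^ 2) = V m ^ 2 := map_pow V m 2
  have ham : V (a * m) ≤ V m := by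
    rw [map_mul]
    exact mul_le_of_le_one_left' ha
  have h3 : V (a ^ 2 - 3 * b) ≤ 1 := by
    have h4 : a ^ 2 - 3 * b ∈ V.integer :=
      sub_mem (pow_mem ha 2) (mul_mem (ofNat_mem V.integer 3) hb)
    exact h4
  have hA : V (m ^ 2 + (a * m + (a ^ 2 - 3 * b))) = V m ^ 2 := by
    rw [Valuation.map_add_eq_of_lt_left V, hm2]
    rw [hm2]
    refine lt_of_le_of_lt (V.map_add _ _) (max_lt (lt_of_le_of_lt ham hsq) ?_)
    exact lt_of_le_of_lt h3 (hm.trans hsq)
  have hB : V (m ^ 2 + (a * m + b)) = V m ^ 2 := by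
    rw [Valuation.map_add_eq_of_lt_left V, hm2]
    rw [hm2]
    refine lt_of_le_of_lt (V.map_add _ _) (max_lt (lt_of_le_of_lt ham hsq) ?_)
    exact lt_of_le_of_lt hb (hm.trans hsq)
  have hB0 : m ^ 2 + (a * m + b) ≠ 0 := by
    intro h0
    rw [h0, map_zero] at hB
    exact (pow_pos hvm0 2).ne hB
  have hd0 : a ^ 2 - 4 * b ≠ 0 := by
    intro h0
    rw [h0, map_zero] at hd
    exact zero_ne_one hd
  have hc4 : (cq (κ * m) (κ * a) (κ ^ 2 * b)).c₄ =
      16 * κ ^ 2 * (m ^ 2 + (a * m + (a ^ 2 - 3 * b))) := by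
    simp only [WeierstrassCurve.c₄, WeierstrassCurve.b₂, WeierstrassCurve.b₄, cq]
    ring
  have hD : (cq (κ * m) (κ * a) (κ ^ 2 * b)).Δ =
      16 * κ ^ 6 * (a ^ 2 - 4 * b) * (m ^ 2 + (a * m + b)) ^ 2 := by
    simp only [WeierstrassCurve.Δ, WeierstrassCurve.b₂, WeierstrassCurve.b₄, WeierstrassCurve.b₆,
      WeierstrassCurve.b₈, cq]
    ring
  have hj : (cq (κ * m) (κ * a) (κ ^ 2 * b)).c₄ ^ 3 / (cq (κ * m) (κ * a) (κ ^ 2 * b)).Δ =
      2 ^ 8 * (m ^ 2 + (a * m + (a ^ 2 - 3 * b))) ^ 3 /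
        ((a ^ 2 - 4 * b) * (m ^ 2 + (a * m + b)) ^ 2) := by
    rw [hc4, hD, div_eq_div_iff]
    · ring
    · have h16 : (16 : K) ≠ 0 := by norm_num
      exact mul_ne_zero (mul_ne_zero (mul_ne_zero h16 (pow_ne_zero 6 hκ)) hd0) (pow_ne_zero 2 hB0)
    · exact mul_ne_zero hd0 (pow_ne_zero 2 hB0)
  rw [hj, map_div₀, map_mul, map_mul, map_pow, map_pow, map_pow, htwo, one_pow, one_mul,
    hA, hB, hd, one_mul]
  have e2 : (V m ^ 2) ^ 3 / (V m ^ 2) ^ 2 = V m ^ 2 := by
    have : V m ≠ 0 := hvm0.ne'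
    field_simp
  rw [e2]
  exact one_lt_pow₀ hm two_ne_zero

/-- a Weierstrass curve with a point of order two -/
theorem quad_of_point {K : Type} [Field K] [CharZero K] (W : WeierstrassCurve K) [W.IsElliptic]
    (T : W.toAffine.Point) (h1 : T ≠ 0) (h2 : 2 • T = 0) : ∃ c a b : K, Quad W c a b := by
  rcases T with _ | ⟨c, y, n⟩
  · exact absurd rfl h1
  obtain ⟨_, hc⟩ := two_tors_RK W n h2
  obtain ⟨a, ha⟩ : ∃ a, a = W.b₂ / 4 + c := ⟨_, rfl⟩
  obtain ⟨b, hb⟩ : ∃ b, b = W.b₄ / 2 + a * c := ⟨_, rfl⟩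
  have hb2 : W.b₂ = 4 * (a - c) := by rw [ha]; ring
  have hb4 : W.b₄ = 2 * (b - a * c) := by rw [hb]; ring
  have hb6 : W.b₆ = -4 * (b * c) := by
    rw [hb2, hb4] at hc
    linear_combination hc
  have hb8 : W.b₈ = (W.b₂ * W.b₆ - W.b₄ ^ 2) / 4 := by
    have := W.b_relation
    field_simp
    linear_combination this
  have hΔ : W.Δ = 16 * (a ^ 2 - 4 * b) * (c ^ 2 + a * c + b) ^ 2 := by
    rw [WeierstrassCurve.Δ, hb8, hb2, hb4, hb6]
    ring
  have hΔ0 : W.Δ ≠ 0 := W.isUnit_Δ.ne_zero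
  refine ⟨c, a, b, ?_, ?_, ?_⟩
  · intro h
    apply hΔ0
    rw [hΔ, h]; ring
  · intro h
    apply hΔ0
    rw [hΔ, h]; ring
  · intro x
    rw [hb2, hb4, hb6]; ring

/-- the abscissas of the points of order two over an algebraically closed extension -/
theorem roots_of_quad {K L : Type} [Field K] [Field L] [CharZero L] [Algebra K L] [IsAlgClosed L]
    {W : WeierstrassCurve K} {c a b : K} (h : Quad W c a b) :
    ∃ e₁ e₂ : L, Roots (W⁄L) e₁ e₂ (algebraMap K L c) ∧ e₁ + e₂ = - algebraMap K L a ∧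
      e₁ * e₂ = algebraMap K L b := by
  have inj := (algebraMap K L).injective
  have hK : CharZero K := (RingHom.charZero_iff inj).2 inferInstance
  have c0 : W.b₆ = -4 * (b * c) := by
    have := h.eq 0
    linear_combination this
  have c1 := h.eq 1
  have cm1 := h.eq (-1)
  have hb2 : W.b₂ = 4 * (a - c) := by
    have h2 : (2 : K) ≠ 0 := two_ne_zero
    apply mul_left_cancel₀ h2
    linear_combination c1 + cm1 - 2 * c0
  have hb4 : W.b₄ = 2 * (b - a * c) := by
    have h2 : (4 : K) ≠ 0 := by norm_num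
    apply mul_left_cancel₀ h2
    linear_combination c1 - cm1
  set A : L := algebraMap K L a with hA
  set B : L := algebraMap K L b with hB
  set C : L := algebraMap K L c with hC
  have hD : A ^ 2 - 4 * B ≠ 0 := by
    intro h0
    apply h.disc
    apply inj
    rw [map_sub, map_mul, map_pow, map_ofNat, map_zero]
    exact h0
  have hN : C ^ 2 + A * C + B ≠ 0 := by
    intro h0
    apply h.ne
    apply inj
    rw [map_add, map_add, map_mul, map_pow, map_zero]
    exact h0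
  obtain ⟨s, hs⟩ := IsAlgClosed.exists_pow_nat_eq (A ^ 2 - 4 * B) (n := 2) two_pos
  have hs0 : s ≠ 0 := by
    rintro rfl
    apply hD
    rw [← hs]
    ring
  have h1 : (-A + s) / 2 + (-A - s) / 2 = -A := by ring
  have h2 : (-A + s) / 2 * ((-A - s) / 2) = B := by
    linear_combination (-1 / 4 : L) * hs
  have h3 : (C - (-A + s) / 2) * (C - (-A - s) / 2) = C ^ 2 + A * C + B := by
    linear_combination h2
  refine ⟨(-A + s) / 2, (-A - s) / 2, ⟨?_, ?_, ?_, ?_⟩, h1, h2⟩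
  · intro h0
    apply hs0
    linear_combination h0
  · intro h0
    apply hN
    rw [← h3, h0]
    ring
  · intro h0
    apply hN
    rw [← h3, h0]
    ring
  · intro x
    have e2 : (W⁄L).b₂ = algebraMap K L W.b₂ := WeierstrassCurve.map_b₂ W (algebraMap K L)
    have e4 : (W⁄L).b₄ = algebraMap K L W.b₄ := WeierstrassCurve.map_b₄ W (algebraMap K L)
    have e6 : (W⁄L).b₆ = algebraMap K L W.b₆ := WeierstrassCurve.map_b₆ W (algebraMap K L)
    rw [e2, e4, e6, hb2, hb4, c0]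
    simp only [map_mul, map_sub, map_neg, map_ofNat]
    rw [← hA, ← hB, ← hC]
    linear_combination (-4 * (x - C)) * h2

end Pool.Agent.LibTP50
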