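import Pool.Agent.LibTP50.Base

/-!
Task RD: reduction modulo a place: a point of infinite order has a multiple whose abscissa has a
pole.
-/

open scoped Classical
open WeierstrassCurve Pool.Agent.LibBH2 Pool.Agent.LibIG50 IsDedekindDomain NumberField

namespace Pool.Agent.LibTP50

section algRD

variable {K : Type} [Field K] {Γ : Type} [LinearOrderedCommGroupWithZero Γ] (V : Valuation K Γ)

theorem add_lt_RD {a b : K} (ha : V a < 1) (hb : V b < 1) : V (a + b) < 1 := V.map_add_lt ha hb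

theorem mul_lt_RD {a b : K} (ha : V a ≤ 1) (hb : V b < 1) : V (a * b) < 1 := by
  rw [map_mul]; exact mul_lt_one_of_nonneg_of_lt_one_right ha zero_le hb

theorem mul_lt_RD' {a b : K} (ha : V a < 1) (hb : V b ≤ 1) : V (a * b) < 1 := by
  rw [mul_comm]; exact mul_lt_RD V hb ha

theorem mul_le_RD {a b : K} (ha : V a ≤ 1) (hb : V b ≤ 1) : V (a * b) ≤ 1 := by
  rw [map_mul]; exact mul_le_one' ha hb

theorem add_le_RD {a b : K} (ha : V a ≤ 1) (hb : V b ≤ 1) : V (a + b) ≤ 1 := V.map_add_le ha hb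

theorem sub_le_RD {a b : K} (ha : V a ≤ 1) (hb : V b ≤ 1) : V (a - b) ≤ 1 := V.map_sub_le ha hb

theorem unit_add_RD {a b : K} (ha : V a = 1) (hb : V b < 1) : V (b + a) = 1 := by
  have h : V b < V a := by rw [ha]; exact hb
  rw [add_comm, Valuation.map_add_eq_of_lt_left V h, ha]

theorem inv_RD {a b : K} (ha : V a = 1) (hb : V b < 1) (hb0 : b ≠ 0) : 1 < V (a / b) := by
  rw [map_div₀, ha, one_div]
  exact (one_lt_inv₀ (zero_lt_iff.mpr ((Valuation.ne_zero_iff _).mpr hb0))).mpr hb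

theorem sq_big_RD {l c : K} (hl : 1 < V l) (hc : V c ≤ 1) : 1 < V (l ^ 2 + c) := by
  have h1 : 1 < V (l ^ 2) := by rw [map_pow]; exact one_lt_pow₀ hl two_ne_zero
  rw [Valuation.map_add_eq_of_lt_left V (hc.trans_lt h1)]
  exact h1

/-- the key computation at a root -/
theorem q_unit_RD (e₁ e₂ e₃ x1 x2 : K) (h12 : V (e₁ - e₂) = 1) (h13 : V (e₁ - e₃) = 1)
    (hu : V (x1 - e₁) < 1) (hw : V (x2 - e₁) < 1) :
    V (x2 ^ 2 + x1 * x2 + x1 ^ 2 - (e₁ + e₂ + e₃) * (x1 + x2) + (e₁ * e₂ + e₁ * e₃ + e₂ * e₃)) = 1 := by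
  have e : x2 ^ 2 + x1 * x2 + x1 ^ 2 - (e₁ + e₂ + e₃) * (x1 + x2) + (e₁ * e₂ + e₁ * e₃ + e₂ * e₃) =
      ((x1 - e₁) * ((x1 - e₁) + ((x2 - e₁) + ((e₁ - e₂) + (e₁ - e₃)))) +
        (x2 - e₁) * ((x2 - e₁) + ((e₁ - e₂) + (e₁ - e₃)))) + (e₁ - e₂) * (e₁ - e₃) := by ring
  rw [e]
  apply unit_add_RD V
  · rw [map_mul, h12, h13, one_mul]
  · have h0 : V ((e₁ - e₂) + (e₁ - e₃)) ≤ 1 := add_le_RD V h12.le h13.le
    exact add_lt_RD V (mul_lt_RD' V hu (add_le_RD V hu.le (add_le_RD V hw.le h0)))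
      (mul_lt_RD' V hw (add_le_RD V hw.le h0))

/-- one of the roots is near -/
theorem near_RD (e₁ e₂ e₃ x1 y1 : K) (hy : y1 ^ 2 = (x1 - e₁) * (x1 - e₂) * (x1 - e₃))
    (h : V y1 < 1) (i1 : V (x1 - e₁) ≤ 1) (i2 : V (x1 - e₂) ≤ 1) (i3 : V (x1 - e₃) ≤ 1) :
    V (x1 - e₁) < 1 ∨ V (x1 - e₂) < 1 ∨ V (x1 - e₃) < 1 := by
  by_contra hcon
  push Not at hcon
  have a1 := le_antisymm i1 hcon.1
  have a2 := le_antisymm i2 hcon.2.1
  have a3 := le_antisymm i3 hcon.2.2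
  have h2 : V (y1 ^ 2) = 1 := by
    rw [hy, map_mul, map_mul, a1, a2, a3, one_mul, one_mul]
  rw [map_pow] at h2
  have h3 : V y1 ^ 2 < 1 := pow_lt_one₀ zero_le h two_ne_zero
  exact absurd h2 h3.ne

/-- the quotient is a unit -/
theorem q_unit_RD' (e₁ e₂ e₃ x1 x2 y1 : K) (h12 : V (e₁ - e₂) = 1) (h13 : V (e₁ - e₃) = 1)
    (h23 : V (e₂ - e₃) = 1)
    (hy : y1 ^ 2 = (x1 - e₁) * (x1 - e₂) * (x1 - e₃))
    (h : V y1 < 1) (i1 : V (x1 - e₁) ≤ 1) (i2 : V (x1 - e₂) ≤ 1) (i3 : V (x1 - e₃) ≤ 1)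
    (hx : V (x2 - x1) < 1) :
    V (x2 ^ 2 + x1 * x2 + x1 ^ 2 - (e₁ + e₂ + e₃) * (x1 + x2) + (e₁ * e₂ + e₁ * e₃ + e₂ * e₃)) = 1 := by
  have hr : ∀ a : K, V (x1 - a) < 1 → V (x2 - a) < 1 := by
    intro a ha
    have : x2 - a = (x2 - x1) + (x1 - a) := by ring
    rw [this]; exact add_lt_RD V hx ha
  have h21 : V (e₂ - e₁) = 1 := by rw [Valuation.map_sub_swap]; exact h12
  have h31 : V (e₃ - e₁) = 1 := by rw [Valuation.map_sub_swap]; exact h13
  have h32 : V (e₃ - e₂) = 1 := by rw [Valuation.map_sub_swap]; exact h23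
  rcases near_RD V e₁ e₂ e₃ x1 y1 hy h i1 i2 i3 with h1 | h1 | h1
  · exact q_unit_RD V e₁ e₂ e₃ x1 x2 h12 h13 h1 (hr _ h1)
  · have := q_unit_RD V e₂ e₁ e₃ x1 x2 h21 h23 h1 (hr _ h1)
    rw [← this]; congr 1; ring
  · have := q_unit_RD V e₃ e₁ e₂ x1 x2 h31 h32 h1 (hr _ h1)
    rw [← this]; congr 1; ring

theorem half_RD (htwo : V 2 = 1) (y : K) (h : V (2 * y) < 1) : V y < 1 := by
  rwa [map_mul, htwo, one_mul] at h

/-- the chord -/
theorem chord_RD (htwo : V 2 = 1) (e₁ e₂ e₃ x1 x2 y1 y2 : K) (h12 : V (e₁ - e₂) = 1)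
    (h13 : V (e₁ - e₃) = 1) (h23 : V (e₂ - e₃) = 1)
    (hy1 : y1 ^ 2 = (x1 - e₁) * (x1 - e₂) * (x1 - e₃))
    (hy2 : y2 ^ 2 = (x2 - e₁) * (x2 - e₂) * (x2 - e₃))
    (i1 : V (x1 - e₁) ≤ 1) (i2 : V (x1 - e₂) ≤ 1) (i3 : V (x1 - e₃) ≤ 1)
    (j1 : V y1 ≤ 1) (j2 : V y2 ≤ 1)
    (hx : V (x2 - x1) < 1) (hy : V (y2 - y1) < 1) (hne : x2 - x1 ≠ 0) :
    1 < V ((y2 + y1) / (x2 - x1)) := by
  by_cases hu : V (y2 + y1) = 1
  · exact inv_RD V hu hx hne
  have hlt : V (y2 + y1) < 1 := lt_of_le_of_ne (add_le_RD V j2 j1) hu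
  have hy1' : V y1 < 1 := by
    apply half_RD V htwo
    have : 2 * y1 = (y2 + y1) + (-(y2 - y1)) := by ring
    rw [this]
    exact add_lt_RD V hlt (by rw [Valuation.map_neg]; exact hy)
  have hq := q_unit_RD' V e₁ e₂ e₃ x1 x2 y1 h12 h13 h23 hy1 hy1' i1 i2 i3 hx
  set q := x2 ^ 2 + x1 * x2 + x1 ^ 2 - (e₁ + e₂ + e₃) * (x1 + x2) + (e₁ * e₂ + e₁ * e₃ + e₂ * e₃)
    with hqd
  have hq0 : q ≠ 0 := by
    intro h; rw [h, map_zero] at hq; exact zero_ne_one hq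
  have hprod : (y2 - y1) * (y2 + y1) = (x2 - x1) * q := by
    rw [hqd]
    linear_combination hy2 - hy1
  have hpn : (y2 - y1) * (y2 + y1) ≠ 0 := by rw [hprod]; exact mul_ne_zero hne hq0
  have hd0 : y2 - y1 ≠ 0 := left_ne_zero_of_mul hpn
  have he : (y2 + y1) / (x2 - x1) = q / (y2 - y1) := by
    rw [div_eq_div_iff hne hd0]
    linear_combination hprod
  rw [he]
  exact inv_RD V hq hy hd0

/-- the tangent -/
theorem tangent_RD (htwo : V 2 = 1) (e₁ e₂ e₃ x1 y1 : K) (h12 : V (e₁ - e₂) = 1)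
    (h13 : V (e₁ - e₃) = 1) (h23 : V (e₂ - e₃) = 1)
    (hy1 : y1 ^ 2 = (x1 - e₁) * (x1 - e₂) * (x1 - e₃))
    (i1 : V (x1 - e₁) ≤ 1) (i2 : V (x1 - e₂) ≤ 1) (i3 : V (x1 - e₃) ≤ 1)
    (hy : V (2 * y1) < 1) (hne : 2 * y1 ≠ 0) :
    1 < V ((3 * x1 ^ 2 - 2 * (e₁ + e₂ + e₃) * x1 + (e₁ * e₂ + e₁ * e₃ + e₂ * e₃)) / (2 * y1)) := by
  have hq := q_unit_RD' V e₁ e₂ e₃ x1 x1 y1 h12 h13 h23 hy1 (half_RD V htwo _ hy) i1 i2 i3
    (by rw [sub_self, map_zero]; exact zero_lt_one)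
  refine inv_RD V ?_ hy hne
  rw [← hq]
  congr 1
  ring

end algRD

section pointRD

variable {K : Type} [Field K]

theorem eqn_RD {e₁ e₂ e₃ x y : K} (h : (cv e₁ e₂ e₃).toAffine.Nonsingular x y) :
    y ^ 2 = (x - e₁) * (x - e₂) * (x - e₃) := by
  have h1 := h.1
  rw [Affine.equation_iff] at h1
  simp only [cv] at h1
  linear_combination h1

theorem negY_RD (e₁ e₂ e₃ x y : K) : (cv e₁ e₂ e₃).toAffine.negY x y = -y := by
  simp [Affine.negY, cv]

theorem addX_RD (e₁ e₂ e₃ x1 x2 l : K) :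
    (cv e₁ e₂ e₃).toAffine.addX x1 x2 l = l ^ 2 + (e₁ + e₂ + e₃ - x1 - x2) := by
  simp only [Affine.addX, cv]
  ring

theorem sub_x_RD {e₁ e₂ e₃ x1 y1 x2 y2 x3 y3 : K}
    {h1 : (cv e₁ e₂ e₃).toAffine.Nonsingular x1 y1}
    {h2 : (cv e₁ e₂ e₃).toAffine.Nonsingular x2 y2} {h3 : (cv e₁ e₂ e₃).toAffine.Nonsingular x3 y3}
    (hx : x1 ≠ x2)
    (h : Affine.Point.some x1 y1 h1 - Affine.Point.some x2 y2 h2 = Affine.Point.some x3 y3 h3) :
    x3 = ((y1 + y2) / (x1 - x2)) ^ 2 + (e₁ + e₂ + e₃ - x1 - x2) := by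
  rw [sub_eq_add_neg, Affine.Point.neg_some, Affine.Point.add_of_X_ne hx,
    Affine.Point.some.injEq] at h
  have h4 := h.1
  rw [addX_RD, Affine.slope_of_X_ne hx, negY_RD, sub_neg_eq_add] at h4
  exact h4.symm

theorem dbl_x_RD {e₁ e₂ e₃ x1 y1 x3 y3 : K}
    {h1 : (cv e₁ e₂ e₃).toAffine.Nonsingular x1 y1}
    {h3 : (cv e₁ e₂ e₃).toAffine.Nonsingular x3 y3} (hy : 2 * y1 ≠ 0)
    (h : Affine.Point.some x1 y1 h1 + Affine.Point.some x1 y1 h1 = Affine.Point.some x3 y3 h3) :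
    x3 = ((3 * x1 ^ 2 - 2 * (e₁ + e₂ + e₃) * x1 + (e₁ * e₂ + e₁ * e₃ + e₂ * e₃)) / (2 * y1)) ^ 2 +
      (e₁ + e₂ + e₃ - x1 - x1) := by
  have hne : y1 ≠ (cv e₁ e₂ e₃).toAffine.negY x1 y1 := by
    rw [negY_RD]
    intro h5
    apply hy
    linear_combination h5
  rw [Affine.Point.add_self_of_Y_ne hne, Affine.Point.some.injEq] at h
  have h4 := h.1
  rw [addX_RD, Affine.slope_of_Y_ne rfl hne, negY_RD] at h4
  simp only [cv] at h4
  rw [← h4]
  congr 3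
  · ring
  · ring

end pointRD

theorem exists_pole (K : Type) [Field K] [NumberField K] (v : HeightOneSpectrum (𝓞 K))
    (e₁ e₂ e₃ : K) (h1 : v.valuation K e₁ ≤ 1) (h2 : v.valuation K e₂ ≤ 1)
    (h3 : v.valuation K e₃ ≤ 1) (h12 : v.valuation K (e₁ - e₂) = 1)
    (h13 : v.valuation K (e₁ - e₃) = 1) (h23 : v.valuation K (e₂ - e₃) = 1)
    (htwo : v.valuation K 2 = 1) (R : (cv e₁ e₂ e₃).toAffine.Point) (hR : ¬ IsOfFinAddOrder R) :
    ∃ (N : ℕ) (x y : K) (h : (cv e₁ e₂ e₃).toAffine.Nonsingular x y), 0 < N ∧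
      N • R = Affine.Point.some x y h ∧ 1 < v.valuation K x := by
  by_contra hcon
  push Not at hcon
  have hsome : ∀ N : ℕ, 0 < N → ∃ (x y : K) (h : (cv e₁ e₂ e₃).toAffine.Nonsingular x y),
      N • R = Affine.Point.some x y h := by
    intro N hN
    have h0 : N • R ≠ 0 := by
      intro h
      exact hR (isOfFinAddOrder_iff_nsmul_eq_zero.mpr ⟨N, hN, h⟩)
    rcases hQ : N • R with _ | ⟨x, y, h⟩
    · exact absurd hQ h0
    · exact ⟨x, y, h, rfl⟩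
  choose x y hns hxy using fun n : ℕ => hsome (n + 1) n.succ_pos
  have hxi : ∀ n, v.valuation K (x n) ≤ 1 := fun n => hcon (n + 1) _ _ (hns n) n.succ_pos (hxy n)
  have hi1 : ∀ n, v.valuation K (x n - e₁) ≤ 1 := fun n => sub_le_RD _ (hxi n) h1
  have hi2 : ∀ n, v.valuation K (x n - e₂) ≤ 1 := fun n => sub_le_RD _ (hxi n) h2
  have hi3 : ∀ n, v.valuation K (x n - e₃) ≤ 1 := fun n => sub_le_RD _ (hxi n) h3
  have hyi : ∀ n, v.valuation K (y n) ≤ 1 := by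
    intro n
    have h5 : v.valuation K (y n) ^ 2 ≤ 1 := by
      rw [← map_pow, eqn_RD (hns n)]
      exact mul_le_RD _ (mul_le_RD _ (hi1 n) (hi2 n)) (hi3 n)
    by_contra h6
    push Not at h6
    exact absurd h5 (not_le.mpr (one_lt_pow₀ h6 two_ne_zero))
  choose a ha using fun n => v.exists_valuation_sub_lt_of_integer (hxi n) 1
  choose b hb using fun n => v.exists_valuation_sub_lt_of_integer (hyi n) 1
  have hfin : Finite (𝓞 K ⧸ v.asIdeal) := v.asIdeal.finiteQuotientOfFreeOfNeBot v.ne_bot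
  obtain ⟨i, j, hij, hmap⟩ := Finite.exists_ne_map_eq_of_infinite
    (fun n : ℕ => ((Ideal.Quotient.mk v.asIdeal (a n), Ideal.Quotient.mk v.asIdeal (b n)) :
      (𝓞 K ⧸ v.asIdeal) × (𝓞 K ⧸ v.asIdeal)))
  simp only [Prod.mk.injEq] at hmap
  have hcl : ∀ (s t : 𝓞 K) (p q : K), v.valuation K (algebraMap (𝓞 K) K s - p) < 1 →
      v.valuation K (algebraMap (𝓞 K) K t - q) < 1 →
      Ideal.Quotient.mk v.asIdeal s = Ideal.Quotient.mk v.asIdeal t → v.valuation K (p - q) < 1 := by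
    intro s t p q hs ht hst
    have h7 : s - t ∈ v.asIdeal := Ideal.Quotient.eq.mp hst
    have h8 : v.valuation K (algebraMap (𝓞 K) K (s - t)) < 1 :=
      (v.valuation_lt_one_iff_mem (s - t)).mpr h7
    have h9 : p - q = -(algebraMap (𝓞 K) K s - p) + ((algebraMap (𝓞 K) K t - q) +
        algebraMap (𝓞 K) K (s - t)) := by
      rw [map_sub]; ring
    rw [h9]
    exact add_lt_RD _ (by rw [Valuation.map_neg]; exact hs) (add_lt_RD _ ht h8)
  have hX := hcl _ _ _ _ (ha i) (ha j) hmap.1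
  have hY := hcl _ _ _ _ (hb i) (hb j) hmap.2
  -- symmetric reduction
  have key : ∀ i j : ℕ, i < j → v.valuation K (x j - x i) < 1 → v.valuation K (y j - y i) < 1 →
      False := by
    intro i j hij hX hY
    obtain ⟨X, Y, hXY, hS⟩ := hsome (j - i) (Nat.sub_pos_of_lt hij)
    have hS' : Affine.Point.some (x j) (y j) (hns j) - Affine.Point.some (x i) (y i) (hns i) =
        Affine.Point.some X Y hXY := by
      rw [← hxy j, ← hxy i, ← hS, sub_eq_iff_eq_add, ← add_nsmul]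
      congr 1
      omega
    have hXle : v.valuation K X ≤ 1 := hcon (j - i) _ _ hXY (Nat.sub_pos_of_lt hij) hS
    refine absurd hXle (not_le.mpr ?_)
    have hc : v.valuation K (e₁ + e₂ + e₃ - x j - x i) ≤ 1 :=
      sub_le_RD _ (sub_le_RD _ (add_le_RD _ (add_le_RD _ h1 h2) h3) (hxi j)) (hxi i)
    by_cases hx : x j = x i
    · have hyne : y j ≠ y i := by
        intro hyy
        have h10 : (Affine.Point.some (x j) (y j) (hns j) : (cv e₁ e₂ e₃).toAffine.Point) =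
            Affine.Point.some (x i) (y i) (hns i) := by
          rw [Affine.Point.some.injEq]; exact ⟨hx, hyy⟩
        rw [h10, sub_self] at hS'
        exact Affine.Point.some_ne_zero hXY hS'.symm
      have hyn : y i = -(y j) := by
        have h11 : (y j - y i) * (y j + y i) = 0 := by
          have e1 := eqn_RD (hns j)
          have e2 := eqn_RD (hns i)
          rw [← hx] at e2
          linear_combination e1 - e2
        have h12' := (mul_eq_zero.mp h11).resolve_left (sub_ne_zero.mpr hyne)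
        linear_combination h12'
      have h2y : y j - y i = 2 * y j := by rw [hyn]; ring
      have h2y0 : 2 * y j ≠ 0 := by rw [← h2y]; exact sub_ne_zero.mpr hyne
      have hneg : -(Affine.Point.some (x i) (y i) (hns i) : (cv e₁ e₂ e₃).toAffine.Point) =
          Affine.Point.some (x j) (y j) (hns j) := by
        rw [Affine.Point.neg_some, Affine.Point.some.injEq]
        refine ⟨hx.symm, ?_⟩
        rw [negY_RD, hyn, neg_neg]
      rw [sub_eq_add_neg, hneg] at hS'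
      rw [dbl_x_RD h2y0 hS']
      refine sq_big_RD _ (tangent_RD _ htwo e₁ e₂ e₃ (x j) (y j) h12 h13 h23 (eqn_RD (hns j))
        (hi1 j) (hi2 j) (hi3 j) (by rw [← h2y]; exact hY) h2y0) ?_
      rw [hx] at hc ⊢
      exact hc
    · rw [sub_x_RD hx hS']
      exact sq_big_RD _ (chord_RD _ htwo e₁ e₂ e₃ (x i) (x j) (y i) (y j) h12 h13 h23
        (eqn_RD (hns i)) (eqn_RD (hns j)) (hi1 i) (hi2 i) (hi3 i) (hyi i) (hyi j) hX hY
        (sub_ne_zero.mpr hx)) hc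
  rcases lt_or_gt_of_ne hij with h | h
  · exact key i j h (by rw [Valuation.map_sub_swap]; exact hX)
      (by rw [Valuation.map_sub_swap]; exact hY)
  · exact key j i h hX hY

end Pool.Agent.LibTP50
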