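import Pool.Agent.LibTP50.Base2
import Pool.Agent.LibTP50.RD

/-!
Task RD2: reduction modulo a place: a point of infinite order has a multiple whose abscissa has a
pole.
-/

open scoped Classical
open WeierstrassCurve Pool.Agent.LibBH2 Pool.Agent.LibIG50 IsDedekindDomain NumberField

namespace Pool.Agent.LibTP50

section algRD2

variable {K : Type} [Field K] {Γ : Type} [LinearOrderedCommGroupWithZero Γ] (V : Valuation K Γ)

theorem unit_of_sq_RD2 {z : K} (h : V (z ^ 2) = 1) : V z = 1 := by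
  rw [map_pow] at h
  rcases lt_trichotomy (V z) 1 with h1 | h1 | h1
  · exact absurd h (pow_lt_one₀ zero_le h1 two_ne_zero).ne
  · exact h1
  · exact absurd h (one_lt_pow₀ h1 two_ne_zero).ne'

theorem four_RD2 (htwo : V 2 = 1) : V 4 = 1 := by
  have : (4 : K) = 2 * 2 := by norm_num
  rw [this, map_mul, htwo, one_mul]

theorem quad_le_RD2 {a b x : K} (ha : V a ≤ 1) (hb : V b ≤ 1) (hx : V x ≤ 1) :
    V (x ^ 2 + a * x + b) ≤ 1 := by
  refine add_le_RD V (add_le_RD V ?_ (mul_le_RD V ha hx)) hb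
  rw [pow_two]
  exact mul_le_RD V hx hx

/-- the derivative is a unit at a zero modulo the place -/
theorem fp_unit_RD2 {c a b x : K} (htwo : V 2 = 1) (hc : V c ≤ 1) (ha : V a ≤ 1) (hb : V b ≤ 1)
    (hd : V (a ^ 2 - 4 * b) = 1) (hn : V (c ^ 2 + a * c + b) = 1) (hx : V x ≤ 1)
    (hf : V ((x - c) * (x ^ 2 + a * x + b)) < 1) :
    V (3 * x ^ 2 + 2 * (a - c) * x + (b - a * c)) = 1 := by
  have h2x : V (2 * x + a) ≤ 1 := add_le_RD V (mul_le_RD V htwo.le hx) ha
  have hxc : V (x - c) ≤ 1 := sub_le_RD V hx hc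
  have hq : V (x ^ 2 + a * x + b) ≤ 1 := quad_le_RD2 V ha hb hx
  by_cases h1 : V (x - c) < 1
  · have e1 : x ^ 2 + a * x + b = (x - c) * (x + c + a) + (c ^ 2 + a * c + b) := by ring
    have h2 : V (x ^ 2 + a * x + b) = 1 := by
      rw [e1]
      exact unit_add_RD V hn (mul_lt_RD' V h1 (add_le_RD V (add_le_RD V hx hc) ha))
    have e2 : 3 * x ^ 2 + 2 * (a - c) * x + (b - a * c) =
        (x - c) * (2 * x + a) + (x ^ 2 + a * x + b) := by ring
    rw [e2]
    exact unit_add_RD V h2 (mul_lt_RD' V h1 h2x)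
  · have h2 : V (x - c) = 1 := le_antisymm hxc (not_lt.mp h1)
    have h3 : V (x ^ 2 + a * x + b) < 1 := by
      rwa [map_mul, h2, one_mul] at hf
    have h4 : V (2 * x + a) = 1 := by
      apply unit_of_sq_RD2 V
      have e1 : (2 * x + a) ^ 2 = 4 * (x ^ 2 + a * x + b) + (a ^ 2 - 4 * b) := by ring
      rw [e1]
      exact unit_add_RD V hd (mul_lt_RD V (four_RD2 V htwo).le h3)
    have e2 : 3 * x ^ 2 + 2 * (a - c) * x + (b - a * c) =
        (x ^ 2 + a * x + b) + (x - c) * (2 * x + a) := by ring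
    rw [e2]
    exact unit_add_RD V (by rw [map_mul, h2, h4, one_mul]) h3

/-- the quotient is a unit -/
theorem g_unit_RD2 {c a b x1 x2 y1 : K} (htwo : V 2 = 1) (hc : V c ≤ 1) (ha : V a ≤ 1)
    (hb : V b ≤ 1) (hd : V (a ^ 2 - 4 * b) = 1) (hn : V (c ^ 2 + a * c + b) = 1)
    (hx1 : V x1 ≤ 1) (hy : y1 ^ 2 = (x1 - c) * (x1 ^ 2 + a * x1 + b)) (h : V y1 < 1)
    (hx : V (x2 - x1) < 1) :
    V (x2 ^ 2 + x1 * x2 + x1 ^ 2 + (a - c) * (x1 + x2) + (b - a * c)) = 1 := by
  have hf : V ((x1 - c) * (x1 ^ 2 + a * x1 + b)) < 1 := by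
    rw [← hy, map_pow]
    exact pow_lt_one₀ zero_le h two_ne_zero
  have h1 := fp_unit_RD2 V htwo hc ha hb hd hn hx1 hf
  have e : x2 ^ 2 + x1 * x2 + x1 ^ 2 + (a - c) * (x1 + x2) + (b - a * c) =
      (x2 - x1) * ((x2 - x1) + (x1 + (2 * x1 + (a - c)))) +
        (3 * x1 ^ 2 + 2 * (a - c) * x1 + (b - a * c)) := by ring
  rw [e]
  exact unit_add_RD V h1 (mul_lt_RD' V hx (add_le_RD V hx.le (add_le_RD V hx1
    (add_le_RD V (mul_le_RD V htwo.le hx1) (sub_le_RD V ha hc)))))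

/-- the chord -/
theorem chord_RD2 {c a b x1 x2 y1 y2 : K} (htwo : V 2 = 1) (hc : V c ≤ 1) (ha : V a ≤ 1)
    (hb : V b ≤ 1) (hd : V (a ^ 2 - 4 * b) = 1) (hn : V (c ^ 2 + a * c + b) = 1)
    (hx1 : V x1 ≤ 1) (hy1 : y1 ^ 2 = (x1 - c) * (x1 ^ 2 + a * x1 + b))
    (hy2 : y2 ^ 2 = (x2 - c) * (x2 ^ 2 + a * x2 + b))
    (j1 : V y1 ≤ 1) (j2 : V y2 ≤ 1)
    (hx : V (x2 - x1) < 1) (hy : V (y2 - y1) < 1) (hne : x2 - x1 ≠ 0) :
    1 < V ((y2 + y1) / (x2 - x1)) := by
  by_cases hu : V (y2 + y1) = 1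
  · exact inv_RD V hu hx hne
  have hlt : V (y2 + y1) < 1 := lt_of_le_of_ne (add_le_RD V j2 j1) hu
  have hy1' : V y1 < 1 := by
    apply half_RD V htwo
    have : 2 * y1 = (y2 + y1) + (-(y2 - y1)) := by ring
    rw [this]
    exact add_lt_RD V hlt (by rw [Valuation.map_neg]; exact hy)
  have hq := g_unit_RD2 V htwo hc ha hb hd hn hx1 hy1 hy1' hx
  set q := x2 ^ 2 + x1 * x2 + x1 ^ 2 + (a - c) * (x1 + x2) + (b - a * c) with hqd
  have hq0 : q ≠ 0 := by
    intro h; rw [h, map_zero] at hq; exact zero_ne_one hq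
  have hprod : (y2 - y1) * (y2 + y1) = (x2 - x1) * q := by
    rw [hqd]
    linear_combination hy2 - hy1
  have hpn : (y2 - y1) * (y2 + y1) ≠ 0 := by rw [hprod]; exact mul_ne_zero hne hq0
  have hd0 : y2 - y1 ≠ 0 := left_ne_zero_of_mul hpn
  have he : (y2 + y1) / (x2 - x1) = q / (y2 - y1) := by
    rw [div_eq_div_iff hne hd0]
    linear_combination hprod
  rw [he]
  exact inv_RD V hq hy hd0

/-- the tangent -/
theorem tangent_RD2 {c a b x1 y1 : K} (htwo : V 2 = 1) (hc : V c ≤ 1) (ha : V a ≤ 1)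
    (hb : V b ≤ 1) (hd : V (a ^ 2 - 4 * b) = 1) (hn : V (c ^ 2 + a * c + b) = 1)
    (hx1 : V x1 ≤ 1) (hy1 : y1 ^ 2 = (x1 - c) * (x1 ^ 2 + a * x1 + b))
    (hy : V (2 * y1) < 1) (hne : 2 * y1 ≠ 0) :
    1 < V ((3 * x1 ^ 2 + 2 * (a - c) * x1 + (b - a * c)) / (2 * y1)) := by
  have hf : V ((x1 - c) * (x1 ^ 2 + a * x1 + b)) < 1 := by
    rw [← hy1, map_pow]
    exact pow_lt_one₀ zero_le (half_RD V htwo _ hy) two_ne_zero
  exact inv_RD V (fp_unit_RD2 V htwo hc ha hb hd hn hx1 hf) hy hne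

end algRD2

section pointRD2

variable {K : Type} [Field K]

theorem eqn_RD2 {c a b x y : K} (h : (cq c a b).toAffine.Nonsingular x y) :
    y ^ 2 = (x - c) * (x ^ 2 + a * x + b) := by
  have h1 := h.1
  rw [Affine.equation_iff] at h1
  simp only [cq] at h1
  linear_combination h1

theorem negY_RD2 (c a b x y : K) : (cq c a b).toAffine.negY x y = -y := by
  simp [Affine.negY, cq]

theorem addX_RD2 (c a b x1 x2 l : K) :
    (cq c a b).toAffine.addX x1 x2 l = l ^ 2 + (c - a - x1 - x2) := by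
  simp only [Affine.addX, cq]
  ring

theorem sub_x_RD2 {c a b x1 y1 x2 y2 x3 y3 : K}
    {h1 : (cq c a b).toAffine.Nonsingular x1 y1}
    {h2 : (cq c a b).toAffine.Nonsingular x2 y2} {h3 : (cq c a b).toAffine.Nonsingular x3 y3}
    (hx : x1 ≠ x2)
    (h : Affine.Point.some x1 y1 h1 - Affine.Point.some x2 y2 h2 = Affine.Point.some x3 y3 h3) :
    x3 = ((y1 + y2) / (x1 - x2)) ^ 2 + (c - a - x1 - x2) := by
  rw [sub_eq_add_neg, Affine.Point.neg_some, Affine.Point.add_of_X_ne hx,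
    Affine.Point.some.injEq] at h
  have h4 := h.1
  rw [addX_RD2, Affine.slope_of_X_ne hx, negY_RD2, sub_neg_eq_add] at h4
  exact h4.symm

theorem dbl_x_RD2 {c a b x1 y1 x3 y3 : K}
    {h1 : (cq c a b).toAffine.Nonsingular x1 y1}
    {h3 : (cq c a b).toAffine.Nonsingular x3 y3} (hy : 2 * y1 ≠ 0)
    (h : Affine.Point.some x1 y1 h1 + Affine.Point.some x1 y1 h1 = Affine.Point.some x3 y3 h3) :
    x3 = ((3 * x1 ^ 2 + 2 * (a - c) * x1 + (b - a * c)) / (2 * y1)) ^ 2 +
      (c - a - x1 - x1) := by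
  have hne : y1 ≠ (cq c a b).toAffine.negY x1 y1 := by
    rw [negY_RD2]
    intro h5
    apply hy
    linear_combination h5
  rw [Affine.Point.add_self_of_Y_ne hne, Affine.Point.some.injEq] at h
  have h4 := h.1
  rw [addX_RD2, Affine.slope_of_Y_ne rfl hne, negY_RD2] at h4
  simp only [cq] at h4
  rw [← h4]
  congr 3
  · ring
  · ring

end pointRD2

theorem exists_pole2 (K : Type) [Field K] [NumberField K] (v : HeightOneSpectrum (𝓞 K))
    (c a b : K) (hc : v.valuation K c ≤ 1) (ha : v.valuation K a ≤ 1)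
    (hb : v.valuation K b ≤ 1) (hd : v.valuation K (a ^ 2 - 4 * b) = 1)
    (hn : v.valuation K (c ^ 2 + a * c + b) = 1)
    (htwo : v.valuation K 2 = 1) (R : (cq c a b).toAffine.Point) (hR : ¬ IsOfFinAddOrder R) :
    ∃ (N : ℕ) (x y : K) (h : (cq c a b).toAffine.Nonsingular x y), 0 < N ∧
      N • R = Affine.Point.some x y h ∧ 1 < v.valuation K x := by
  by_contra hcon
  push Not at hcon
  have hsome : ∀ N : ℕ, 0 < N → ∃ (x y : K) (h : (cq c a b).toAffine.Nonsingular x y),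
      N • R = Affine.Point.some x y h := by
    intro N hN
    have h0 : N • R ≠ 0 := by
      intro h
      exact hR (isOfFinAddOrder_iff_nsmul_eq_zero.mpr ⟨N, hN, h⟩)
    rcases hQ : N • R with _ | ⟨x, y, h⟩
    · exact absurd hQ h0
    · exact ⟨x, y, h, rfl⟩
  choose x y hns hxy using fun n : ℕ => hsome (n + 1) n.succ_pos
  have hxi : ∀ n, v.valuation K (x n) ≤ 1 := fun n => hcon (n + 1) _ _ (hns n) n.succ_pos (hxy n)
  have hi1 : ∀ n, v.valuation K (x n - c) ≤ 1 := fun n => sub_le_RD _ (hxi n) hc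
  have hyi : ∀ n, v.valuation K (y n) ≤ 1 := by
    intro n
    have h5 : v.valuation K (y n) ^ 2 ≤ 1 := by
      rw [← map_pow, eqn_RD2 (hns n)]
      exact mul_le_RD _ (hi1 n) (quad_le_RD2 _ ha hb (hxi n))
    by_contra h6
    push Not at h6
    exact absurd h5 (not_le.mpr (one_lt_pow₀ h6 two_ne_zero))
  choose s hs using fun n => v.exists_valuation_sub_lt_of_integer (hxi n) 1
  choose t ht using fun n => v.exists_valuation_sub_lt_of_integer (hyi n) 1
  have hfin : Finite (𝓞 K ⧸ v.asIdeal) := v.asIdeal.finiteQuotientOfFreeOfNeBot v.ne_bot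
  obtain ⟨i, j, hij, hmap⟩ := Finite.exists_ne_map_eq_of_infinite
    (fun n : ℕ => ((Ideal.Quotient.mk v.asIdeal (s n), Ideal.Quotient.mk v.asIdeal (t n)) :
      (𝓞 K ⧸ v.asIdeal) × (𝓞 K ⧸ v.asIdeal)))
  simp only [Prod.mk.injEq] at hmap
  have hcl : ∀ (s t : 𝓞 K) (p q : K), v.valuation K (algebraMap (𝓞 K) K s - p) < 1 →
      v.valuation K (algebraMap (𝓞 K) K t - q) < 1 →
      Ideal.Quotient.mk v.asIdeal s = Ideal.Quotient.mk v.asIdeal t → v.valuation K (p - q) < 1 := by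
    intro s t p q hs ht hst
    have h7 : s - t ∈ v.asIdeal := Ideal.Quotient.eq.mp hst
    have h8 : v.valuation K (algebraMap (𝓞 K) K (s - t)) < 1 :=
      (v.valuation_lt_one_iff_mem (s - t)).mpr h7
    have h9 : p - q = -(algebraMap (𝓞 K) K s - p) + ((algebraMap (𝓞 K) K t - q) +
        algebraMap (𝓞 K) K (s - t)) := by
      rw [map_sub]; ring
    rw [h9]
    exact add_lt_RD _ (by rw [Valuation.map_neg]; exact hs) (add_lt_RD _ ht h8)
  have hX := hcl _ _ _ _ (hs i) (hs j) hmap.1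
  have hY := hcl _ _ _ _ (ht i) (ht j) hmap.2
  -- symmetric reduction
  have key : ∀ i j : ℕ, i < j → v.valuation K (x j - x i) < 1 → v.valuation K (y j - y i) < 1 →
      False := by
    intro i j hij hX hY
    obtain ⟨X, Y, hXY, hS⟩ := hsome (j - i) (Nat.sub_pos_of_lt hij)
    have hS' : Affine.Point.some (x j) (y j) (hns j) - Affine.Point.some (x i) (y i) (hns i) =
        Affine.Point.some X Y hXY := by
      rw [← hxy j, ← hxy i, ← hS, sub_eq_iff_eq_add, ← add_nsmul]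
      congr 1
      omega
    have hXle : v.valuation K X ≤ 1 := hcon (j - i) _ _ hXY (Nat.sub_pos_of_lt hij) hS
    refine absurd hXle (not_le.mpr ?_)
    have hcx : v.valuation K (c - a - x j - x i) ≤ 1 :=
      sub_le_RD _ (sub_le_RD _ (sub_le_RD _ hc ha) (hxi j)) (hxi i)
    by_cases hx : x j = x i
    · have hyne : y j ≠ y i := by
        intro hyy
        have h10 : (Affine.Point.some (x j) (y j) (hns j) : (cq c a b).toAffine.Point) =
            Affine.Point.some (x i) (y i) (hns i) := by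
          rw [Affine.Point.some.injEq]; exact ⟨hx, hyy⟩
        rw [h10, sub_self] at hS'
        exact Affine.Point.some_ne_zero hXY hS'.symm
      have hyn : y i = -(y j) := by
        have h11 : (y j - y i) * (y j + y i) = 0 := by
          have e1 := eqn_RD2 (hns j)
          have e2 := eqn_RD2 (hns i)
          rw [← hx] at e2
          linear_combination e1 - e2
        have h12' := (mul_eq_zero.mp h11).resolve_left (sub_ne_zero.mpr hyne)
        linear_combination h12'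
      have h2y : y j - y i = 2 * y j := by rw [hyn]; ring
      have h2y0 : 2 * y j ≠ 0 := by rw [← h2y]; exact sub_ne_zero.mpr hyne
      have hneg : -(Affine.Point.some (x i) (y i) (hns i) : (cq c a b).toAffine.Point) =
          Affine.Point.some (x j) (y j) (hns j) := by
        rw [Affine.Point.neg_some, Affine.Point.some.injEq]
        refine ⟨hx.symm, ?_⟩
        rw [negY_RD2, hyn, neg_neg]
      rw [sub_eq_add_neg, hneg] at hS'
      rw [dbl_x_RD2 h2y0 hS']
      refine sq_big_RD _ (tangent_RD2 _ htwo hc ha hb hd hn (hxi j) (eqn_RD2 (hns j))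
        (by rw [← h2y]; exact hY) h2y0) ?_
      rw [hx] at hcx ⊢
      exact hcx
    · rw [sub_x_RD2 hx hS']
      exact sq_big_RD _ (chord_RD2 _ htwo hc ha hb hd hn (hxi i)
        (eqn_RD2 (hns i)) (eqn_RD2 (hns j)) (hyi i) (hyi j) hX hY
        (sub_ne_zero.mpr hx)) hcx
  rcases lt_or_gt_of_ne hij with h | h
  · exact key i j h (by rw [Valuation.map_sub_swap]; exact hX)
      (by rw [Valuation.map_sub_swap]; exact hY)
  · exact key j i h hX hY

end Pool.Agent.LibTP50
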