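import Pool.Agent.LibTP50.Datum
import Pool.Agent.LibTP50.HC2
import Pool.Agent.LibTP50.RD2
import Pool.Agent.LibTP50.PL2

/-!
The data at one place, for curves with a rational point of order two.
-/

open scoped Classical
open WeierstrassCurve Pool.Agent.LibBH2 Pool.Agent.LibIG50 IsDedekindDomain NumberField

namespace Pool.Agent.LibTP50

section crv2

variable {K : Type} [Field K]

/-- the twisting factor -/
def kap2 (a b t m : K) : K := (t ^ 2 + a * t + b) * (t - m)

/-- the curve `κ y ^ 2 = (x - m) (x ^ 2 + a x + b)`, in Weierstrass form -/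
def crv2 (a b t m : K) : WeierstrassCurve K :=
  cq (kap2 a b t m * m) (kap2 a b t m * a) (kap2 a b t m ^ 2 * b)

theorem kap2_ne {a b t m : K} (h : t ^ 2 + a * t + b ≠ 0) (hmt : m ≠ t) : kap2 a b t m ≠ 0 :=
  mul_ne_zero h (sub_ne_zero.2 hmt.symm)

theorem cq_Δ (c a b : K) :
    (cq c a b).Δ = 16 * (a ^ 2 - 4 * b) * (c ^ 2 + a * c + b) ^ 2 := by
  simp only [cq, WeierstrassCurve.Δ, WeierstrassCurve.b₂, WeierstrassCurve.b₄,
    WeierstrassCurve.b₆, WeierstrassCurve.b₈]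
  ring

theorem cq_Δ_ne [CharZero K] {c a b : K} (hd : a ^ 2 - 4 * b ≠ 0) (hn : c ^ 2 + a * c + b ≠ 0) :
    (cq c a b).Δ ≠ 0 := by
  rw [cq_Δ]
  have : (16 : K) ≠ 0 := by norm_num
  exact mul_ne_zero (mul_ne_zero this hd) (pow_ne_zero 2 hn)

theorem twist_disc {a b κ : K} (hκ : κ ≠ 0) (hd : a ^ 2 - 4 * b ≠ 0) :
    (κ * a) ^ 2 - 4 * (κ ^ 2 * b) ≠ 0 := by
  have e : (κ * a) ^ 2 - 4 * (κ ^ 2 * b) = κ ^ 2 * (a ^ 2 - 4 * b) := by ring
  rw [e]
  exact mul_ne_zero (pow_ne_zero 2 hκ) hd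

theorem twist_ne {a b κ m : K} (hκ : κ ≠ 0) (hm : m ^ 2 + a * m + b ≠ 0) :
    (κ * m) ^ 2 + κ * a * (κ * m) + κ ^ 2 * b ≠ 0 := by
  have e : (κ * m) ^ 2 + κ * a * (κ * m) + κ ^ 2 * b = κ ^ 2 * (m ^ 2 + a * m + b) := by ring
  rw [e]
  exact mul_ne_zero (pow_ne_zero 2 hκ) hm

theorem crv2_elliptic [CharZero K] {a b t m : K} (hd : a ^ 2 - 4 * b ≠ 0)
    (ht : t ^ 2 + a * t + b ≠ 0) (hm : m ^ 2 + a * m + b ≠ 0) (hmt : m ≠ t) :
    (crv2 a b t m).IsElliptic :=
  ⟨(isUnit_iff_ne_zero).2 (cq_Δ_ne (twist_disc (kap2_ne ht hmt) hd)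
    (twist_ne (kap2_ne ht hmt) hm))⟩

theorem crv2_nons [CharZero K] {a b t m : K} (hd : a ^ 2 - 4 * b ≠ 0)
    (ht : t ^ 2 + a * t + b ≠ 0) (hm : m ^ 2 + a * m + b ≠ 0) (hmt : m ≠ t) :
    (crv2 a b t m).toAffine.Nonsingular (kap2 a b t m * t) (kap2 a b t m ^ 2) := by
  apply (Affine.equation_iff_nonsingular_of_Δ_ne_zero (W := crv2 a b t m)
    (cq_Δ_ne (twist_disc (kap2_ne ht hmt) hd) (twist_ne (kap2_ne ht hmt) hm))).1
  rw [Affine.equation_iff]
  simp only [crv2, cq, kap2]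
  ring

/-- the roots of the twisted curve over an extension -/
theorem crv2_roots [CharZero K] {L : Type} [Field L] [CharZero L] [Algebra K L] {a b t m : K}
    (ht : t ^ 2 + a * t + b ≠ 0) (hm : m ^ 2 + a * m + b ≠ 0) (hmt : m ≠ t) {e₁ e₂ : L}
    (h12 : e₁ ≠ e₂) (hs : e₁ + e₂ = - algebraMap K L a) (hp : e₁ * e₂ = algebraMap K L b) :
    Roots ((crv2 a b t m)⁄L) (algebraMap K L (kap2 a b t m) * e₁)
      (algebraMap K L (kap2 a b t m) * e₂)
      (algebraMap K L (kap2 a b t m) * algebraMap K L m) := by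
  have hκ : algebraMap K L (kap2 a b t m) ≠ 0 :=
    (map_ne_zero (algebraMap K L)).2 (kap2_ne ht hmt)
  have ha : algebraMap K L a = -(e₁ + e₂) := by rw [hs, neg_neg]
  have hmL : (algebraMap K L m - e₁) * (algebraMap K L m - e₂) ≠ 0 := by
    have h1 := (map_ne_zero (algebraMap K L)).2 hm
    rw [map_add, map_add, map_mul, map_pow, ha, ← hp] at h1
    intro h2
    apply h1
    linear_combination h2
  refine ⟨fun h => h12 (mul_left_cancel₀ hκ h), fun h => ?_, fun h => ?_, fun x => ?_⟩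
  · apply hmL
    rw [mul_left_cancel₀ hκ h]
    ring
  · apply hmL
    rw [mul_left_cancel₀ hκ h]
    ring
  · have e2 : ((crv2 a b t m)⁄L).b₂ = algebraMap K L (crv2 a b t m).b₂ :=
      WeierstrassCurve.map_b₂ _ (algebraMap K L)
    have e4 : ((crv2 a b t m)⁄L).b₄ = algebraMap K L (crv2 a b t m).b₄ :=
      WeierstrassCurve.map_b₄ _ (algebraMap K L)
    have e6 : ((crv2 a b t m)⁄L).b₆ = algebraMap K L (crv2 a b t m).b₆ :=
      WeierstrassCurve.map_b₆ _ (algebraMap K L)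
    rw [e2, e4, e6]
    simp only [crv2, cq, WeierstrassCurve.b₂, WeierstrassCurve.b₄, WeierstrassCurve.b₆, map_mul,
      map_add, map_sub, map_neg, map_ofNat, map_pow, map_zero, ha, ← hp]
    ring

end crv2

/-- a point of infinite order has no abscissa in common with the points of order two -/
theorem ne_of_quad {K : Type} [Field K] [CharZero K] {W : WeierstrassCurve K} {c a b x y : K}
    (hW : Quad W c a b) (h : W.toAffine.Nonsingular x y)
    (ho : ¬ IsOfFinAddOrder (Affine.Point.some x y h : W.toAffine.Point)) :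
    (x - c) * (x ^ 2 + a * x + b) ≠ 0 := by
  intro h0
  apply ho
  refine isOfFinAddOrder_iff_nsmul_eq_zero.2 ⟨2, two_pos, ?_⟩
  have h1 := hW.eq x
  rw [h0, mul_zero] at h1
  have h2 := h.1
  rw [Affine.equation_iff] at h2
  have h3 : (2 * y + W.a₁ * x + W.a₃) ^ 2 = 0 := by
    rw [← h1, WeierstrassCurve.b₂, WeierstrassCurve.b₄, WeierstrassCurve.b₆]
    linear_combination 4 * h2
  have h4 : 2 * y + W.a₁ * x + W.a₃ = 0 := pow_eq_zero_iff two_ne_zero |>.1 h3
  rw [two_nsmul]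
  apply Affine.Point.add_self_of_Y_eq
  rw [Affine.negY]
  linear_combination h4

/-- completing the square -/
theorem rel_cq {K : Type} [Field K] [CharZero K] {W : WeierstrassCurve K} {c a b : K}
    (h : Quad W c a b) : TD1.Rel W (cq c a b) 1 0 (W.a₁ / 2) (W.a₃ / 2) := by
  have c0 : W.b₆ = -4 * (c * b) := by
    have := h.eq 0
    linear_combination this
  have c1 := h.eq 1
  have cm1 := h.eq (-1)
  have hb2 : W.b₂ = 4 * (a - c) := by
    have h2 : (2 : K) ≠ 0 := two_ne_zero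
    apply mul_left_cancel₀ h2
    linear_combination c1 + cm1 - 2 * c0
  have hb4 : W.b₄ = 2 * (b - a * c) := by
    have h2 : (4 : K) ≠ 0 := by norm_num
    apply mul_left_cancel₀ h2
    linear_combination c1 - cm1
  rw [WeierstrassCurve.b₂] at hb2
  rw [WeierstrassCurve.b₄] at hb4
  rw [WeierstrassCurve.b₆] at c0
  refine ⟨one_ne_zero, ?_, ?_, ?_, ?_, ?_⟩ <;> simp only [cq]
  · ring
  · linear_combination (1 / 4 : K) * hb2
  · ring
  · linear_combination (1 / 2 : K) * hb4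
  · linear_combination (1 / 4 : K) * c0

section place

variable {K Γ₀ : Type} [Field K] [LinearOrderedCommGroupWithZero Γ₀] (v : Valuation K Γ₀)

theorem val_quad {a b m : K} (ha : v a ≤ 1) (hb : v b ≤ 1) (hm : 1 < v m) :
    v (m ^ 2 + a * m + b) = v m ^ 2 := by
  have hm0 : v m ≠ 0 := (lt_trans zero_lt_one hm).ne'
  have h1 : v (m ^ 2) = v m ^ 2 := map_pow v m 2
  have h2 : v m < v m ^ 2 := by
    rw [sq]
    exact lt_mul_of_one_lt_left (lt_trans zero_lt_one hm) hm
  have h3 : v (a * m + b) < v (m ^ 2) := by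
    rw [h1]
    refine lt_of_le_of_lt (Valuation.map_add v _ _) (max_lt ?_ ?_)
    · rw [map_mul]
      refine lt_of_le_of_lt ?_ h2
      exact mul_le_of_le_one_left (le_of_lt (lt_trans zero_lt_one hm)) ha
    · exact lt_of_le_of_lt hb (lt_trans hm h2)
  rw [add_assoc, Valuation.map_add_eq_of_lt_left v h3, h1]

end place

variable (K : Type) [Field K] [NumberField K]

/-- the data at a place, torsion case -/
theorem datum2_torsion (E : WeierstrassCurve K) [E.IsElliptic] {c a b : K} (hE : Quad E c a b)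
    (A : AddSubgroup E.toAffine.Point) (hA : ∀ a : A, IsOfFinAddOrder a) :
    ∃ t : K, t ^ 2 + a * t + b ≠ 0 ∧ ∀ S : Set (HeightOneSpectrum (𝓞 K)), S.Finite →
      ∃ v ∉ S, ∃ m : K, 1 < v.valuation K m ∧ m ≠ t ∧ m ^ 2 + a * m + b ≠ 0 ∧
      ∀ (h : (crv2 a b t m).toAffine.Nonsingular (kap2 a b t m * t) (kap2 a b t m ^ 2)), ∀ P ∈ A,
        Ort P (Affine.Point.some _ _ h : (crv2 a b t m).toAffine.Point) := by
  obtain ⟨t, ht⟩ : ∃ t : K, t ^ 2 + a * t + b ≠ 0 := by
    by_contra hcon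
    push Not at hcon
    have h0 := hcon 0
    have h1 := hcon 1
    have h2 := hcon 2
    have h3 : (2 : K) = 0 := by linear_combination h2 - 2 * h1 + h0
    exact two_ne_zero h3
  have hs : ∀ x : K, {v : HeightOneSpectrum (𝓞 K) | 1 < v.valuation K x}.Finite :=
    fun x => HeightOneSpectrum.Support.finite (𝓞 K) x
  refine ⟨t, ht, fun S hS => ?_⟩
  obtain ⟨v, hv⟩ := exists_place K _ (hS.union (((hs a).union (hs b)).union (hs t)))
  simp only [Set.mem_union, Set.mem_ofPred_eq, not_or, not_lt] at hv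
  obtain ⟨hvS, ⟨va, vb⟩, vt⟩ := hv
  obtain ⟨m, hm⟩ := exists_big K v
  have hmt : m ≠ t := val_ne_of_lt _ vt hm
  have hmq : m ^ 2 + a * m + b ≠ 0 := by
    intro h
    have h1 := val_quad (v.valuation K) va vb hm
    rw [h, map_zero] at h1
    exact (pow_ne_zero 2 (lt_trans zero_lt_one hm).ne') h1.symm
  refine ⟨v, hvS, m, hm, hmt, hmq, fun h P hP => ?_⟩
  have : (crv2 a b t m).IsElliptic := crv2_elliptic hE.disc ht hmq hmt
  apply ort_torsion
  exact A.subtype.isOfFinAddOrder (hA ⟨P, hP⟩)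

/-- the data at a place, main case -/
theorem datum2_main (E : WeierstrassCurve K) [E.IsElliptic] {c a b : K} (hE : Quad E c a b)
    (p r : E.toAffine.Point) (hp : ¬ IsOfFinAddOrder p) (hr : ¬ IsOfFinAddOrder r) :
    ∃ t : K, t ^ 2 + a * t + b ≠ 0 ∧ ∀ S : Set (HeightOneSpectrum (𝓞 K)), S.Finite →
      ∃ v ∉ S, ∃ m : K, 1 < v.valuation K m ∧ m ≠ t ∧ m ^ 2 + a * m + b ≠ 0 ∧
      ∀ (h : (crv2 a b t m).toAffine.Nonsingular (kap2 a b t m * t) (kap2 a b t m ^ 2)),
        ∀ P ∈ ({p, r} : Set _),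
        Ort P (Affine.Point.some _ _ h : (crv2 a b t m).toAffine.Point) := by
  have hd := hE.disc
  obtain ⟨t, yp, hpn, rfl⟩ : ∃ x y h, p = Affine.Point.some x y h := by
    rcases p with _ | ⟨x, y, h⟩
    · exact absurd (isOfFinAddOrder_iff_nsmul_eq_zero.2 ⟨1, one_pos, smul_zero _⟩) hp
    · exact ⟨x, y, h, rfl⟩
  have hpr := ne_of_quad hE hpn hp
  have ht : t ^ 2 + a * t + b ≠ 0 := right_ne_zero_of_mul hpr
  refine ⟨t, ht, fun S hS => ?_⟩
  have hs : ∀ x : K, {v : HeightOneSpectrum (𝓞 K) | 1 < v.valuation K x}.Finite :=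
    fun x => HeightOneSpectrum.Support.finite (𝓞 K) x
  have hfin := hS.union (((((((hs a).union (hs b)).union (hs c)).union (hs t)).union
    (finite_not_unit K _ hd)).union (finite_not_unit K _ hE.ne)).union
    ((finite_not_unit K _ (two_ne_zero (α := K))).union (finite_not_unit K _ ht)))
  obtain ⟨v, hv⟩ := exists_place K _ hfin
  simp only [Set.mem_union, Set.mem_ofPred_eq, not_or, not_lt, ne_eq, not_not] at hv
  obtain ⟨hvS, ⟨⟨⟨⟨⟨va, vb⟩, vc⟩, vt⟩, vd⟩, vn⟩, vtwo, vtq⟩ := hv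
  refine ⟨v, hvS, ?_⟩
  have R := rel_cq hE
  have hr' : ¬ IsOfFinAddOrder (TD1.vc R r) := fun h =>
    hr ((isOfFinAddOrder_iff_nsmul_eq_zero.1 h).elim fun n hn =>
        isOfFinAddOrder_iff_nsmul_eq_zero.2 ⟨n, hn.1, (TD1.vc_bijective R).1 (by
          rw [map_nsmul, hn.2, map_zero])⟩)
  obtain ⟨N, x, y', hxn, hN, hNR, hx⟩ := exists_pole2 K v c a b vc va vb vd vn vtwo _ hr'
  rw [← map_nsmul] at hNR
  obtain ⟨y, hyn, hNr⟩ : ∃ y h, N • r = Affine.Point.some x y h := by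
    rcases hNr : N • r with _ | ⟨x₀, y₀, h₀⟩
    · rw [hNr] at hNR
      exact absurd hNR.symm (Affine.Point.some_ne_zero _)
    · rw [hNr, TD1.vc_some, Affine.Point.some.injEq] at hNR
      obtain rfl : x₀ = x := by
        have := hNR.1
        linear_combination this
      exact ⟨y₀, h₀, rfl⟩
  have hx0 : v.valuation K x ≠ 0 := (lt_trans zero_lt_one hx).ne'
  have hxc : v.valuation K (x - c) = v.valuation K x := val_sub_of_lt _ vc hx
  have hxq : v.valuation K (x ^ 2 + a * x + b) = v.valuation K x ^ 2 := val_quad _ va vb hx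
  have hxc0 : x - c ≠ 0 := fun h => hx0 (by rw [← hxc, h, map_zero])
  have hxq0 : x ^ 2 + a * x + b ≠ 0 := fun h => pow_ne_zero 2 hx0 (by rw [← hxq, h, map_zero])
  obtain ⟨g, hg⟩ : ∃ g, g = (x ^ 2 + a * x + b) / ((a ^ 2 - 4 * b) * (x - c)) := ⟨_, rfl⟩
  have hge : g * ((a ^ 2 - 4 * b) * (x - c)) = x ^ 2 + a * x + b := by
    rw [hg, div_mul_cancel₀ _ (mul_ne_zero hd hxc0)]
  have hvg : v.valuation K g = v.valuation K x := by
    rw [hg, map_div₀, map_mul, hxq, vd, one_mul, hxc, sq, mul_div_assoc, div_self hx0, mul_one]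
  have hg0 : g ≠ 0 := by
    rintro rfl
    rw [map_zero] at hvg
    exact hx0 hvg.symm
  obtain ⟨m, hm⟩ : ∃ m, m = t - (t ^ 2 + a * t + b) * g := ⟨_, rfl⟩
  have hvm : 1 < v.valuation K m := by
    have h1 : 1 < v.valuation K ((t ^ 2 + a * t + b) * g) := by
      rw [map_mul, vtq, one_mul, hvg]; exact hx
    rw [hm, val_sub_of_lt' _ vt h1]
    exact h1
  have hmt : m ≠ t := by
    intro h
    apply mul_ne_zero ht hg0
    linear_combination hm - h
  have hmq : m ^ 2 + a * m + b ≠ 0 := by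
    intro h
    have h1 := val_quad (v.valuation K) va vb hvm
    rw [h, map_zero] at h1
    exact (pow_ne_zero 2 (lt_trans zero_lt_one hvm).ne') h1.symm
  have hκ : kap2 a b t m ≠ 0 := kap2_ne ht hmt
  have hEl : (crv2 a b t m).IsElliptic := crv2_elliptic hd ht hmq hmt
  obtain ⟨e₁, e₂, hEr, hsum, hprod⟩ := roots_of_quad (L := AlgebraicClosure K) hE
  have hRt := crv2_roots (L := AlgebraicClosure K) ht hmq hmt hEr.h12 hsum hprod
  refine ⟨m, hvm, hmt, hmq, fun h P hP => ?_⟩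
  set F := algebraMap K (AlgebraicClosure K) with hF
  have ha : F a = -(e₁ + e₂) := by rw [hsum, neg_neg]
  have hqF : ∀ z : K, F (z ^ 2 + a * z + b) = (F z - e₁) * (F z - e₂) := by
    intro z
    rw [map_add, map_add, map_mul, map_pow, ha, ← hprod]
    ring
  have hdF : F (a ^ 2 - 4 * b) = (e₂ - e₁) ^ 2 := by
    rw [map_sub, map_mul, map_pow, ha, ← hprod, map_ofNat]
    ring
  rcases hP with rfl | rfl
  · unfold Ort
    rw [constPt_some, constPt_some]
    apply zc_of_level hEr hRt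
    rw [map_mul]
    ring
  · apply ort_nsmul hN
    rw [hNr]
    unfold Ort
    rw [constPt_some, constPt_some]
    have hκF : F (kap2 a b t m) ≠ 0 := (map_ne_zero F).2 hκ
    apply zc_of_level2 hEr hRt
    · rw [← hqF, ← map_sub, ← map_mul]
      exact (map_ne_zero F).2 (mul_ne_zero hxq0 hxc0)
    · have e1 : (F (kap2 a b t m * t) - F (kap2 a b t m) * e₁) *
          (F (kap2 a b t m * t) - F (kap2 a b t m) * e₂) *
          (F (kap2 a b t m * t) - F (kap2 a b t m) * F m) =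
          F (kap2 a b t m) ^ 3 * F ((t ^ 2 + a * t + b) * (t - m)) := by
        rw [map_mul, map_mul F (t ^ 2 + a * t + b), hqF, map_sub]
        ring
      rw [e1]
      exact mul_ne_zero (pow_ne_zero 3 hκF) ((map_ne_zero F).2 hκ)
    · have e1 : F t - F m = (F t - e₁) * (F t - e₂) * F g := by
        rw [← hqF, ← map_mul, ← map_sub, hm]
        congr 1
        ring
      have e2 : F g * ((e₂ - e₁) ^ 2 * (F x - F c)) = (F x - e₁) * (F x - e₂) := by
        rw [← hdF, ← hqF, ← map_sub, ← map_mul, ← map_mul, hge]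
      rw [map_mul, ← e2]
      have e3 : F (kap2 a b t m) * F t - F (kap2 a b t m) * F m =
          F (kap2 a b t m) * ((F t - e₁) * (F t - e₂) * F g) := by rw [← e1]; ring
      rw [e3]
      ring

end Pool.Agent.LibTP50
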