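import Pool.Agent.LibTP50.Datum

/-!
Saturated groups of points, the interchange of the factors.
-/

open scoped Classical
open WeierstrassCurve Pool.Agent.LibBH2 Pool.Agent.LibIG50 IsDedekindDomain NumberField

namespace Pool.Agent.LibTP50

/-- the saturation of a subgroup -/
def sat {A : Type} [AddCommGroup A] (B : AddSubgroup A) : AddSubgroup A where
  carrier := {R | ∃ n : ℕ, 0 < n ∧ n • R ∈ B}
  zero_mem' := ⟨1, one_pos, by rw [smul_zero]; exact B.zero_mem⟩
  add_mem' := by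
    rintro R S ⟨n, hn, h⟩ ⟨m, hm, h'⟩
    refine ⟨n * m, Nat.mul_pos hn hm, ?_⟩
    rw [smul_add]
    refine B.add_mem ?_ ?_
    · rw [mul_comm, mul_smul]
      exact B.nsmul_mem h m
    · rw [mul_smul]
      exact B.nsmul_mem h' n
  neg_mem' := by
    rintro R ⟨n, hn, h⟩
    refine ⟨n, hn, ?_⟩
    rw [smul_neg]
    exact B.neg_mem h

/-- orthogonality of saturated groups generated by rational points -/
theorem ort_sat {K : Type} [Field K] [CharZero K] {W W' : WeierstrassCurve K} [W.IsElliptic]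
    [W'.IsElliptic] {A : AddSubgroup W.toAffine.Point} {B : AddSubgroup W'.toAffine.Point}
    (h : ∀ P ∈ A, ∀ Q ∈ B, Ort P Q) {P : (W⁄(AlgebraicClosure K)).toAffine.Point}
    {Q : (W'⁄(AlgebraicClosure K)).toAffine.Point}
    (hP : P ∈ sat (A.map (constHom (AlgebraicClosure K) W)))
    (hQ : Q ∈ sat (B.map (constHom (AlgebraicClosure K) W'))) :
    IsOfFinAddOrder (zc P Q : CH0 (W⁄(AlgebraicClosure K)) (W'⁄(AlgebraicClosure K))) := by
  obtain ⟨n, hn, P', hP', hP⟩ := hP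
  obtain ⟨m, hm, Q', hQ', hQ⟩ := hQ
  have h1 := h P' hP' Q' hQ'
  unfold Ort at h1
  rw [constHom_apply] at hP hQ
  rw [hP, hQ, zc_nsmul_left, zc_nsmul_right, isOfFinAddOrder_iff_nsmul_eq_zero] at h1
  obtain ⟨l, hl, h2⟩ := h1
  rw [← mul_smul, ← mul_smul] at h2
  exact isOfFinAddOrder_iff_nsmul_eq_zero.2 ⟨l * n * m, by positivity, h2⟩

theorem ort_zmultiples {K : Type} [Field K] [CharZero K] {W W' : WeierstrassCurve K} [W.IsElliptic]
    [W'.IsElliptic] {P : W.toAffine.Point} {Q : W'.toAffine.Point} (h : Ort P Q) :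
    ∀ Q' ∈ AddSubgroup.zmultiples Q, Ort P Q' := by
  intro Q' hQ'
  obtain ⟨l, rfl⟩ := AddSubgroup.mem_zmultiples_iff.1 hQ'
  have h1 := map_zsmul ((zHom (W⁄(AlgebraicClosure K)) (W'⁄(AlgebraicClosure K))
    (constPt (AlgebraicClosure K) P)).comp (constHom (AlgebraicClosure K) W')) l Q
  unfold Ort at h ⊢
  change zc _ (constPt _ (l • Q)) = l • zc _ (constPt _ Q) at h1
  rw [h1]
  exact IsOfFinAddOrder.zsmul h

theorem ort_zmultiples_left {K : Type} [Field K] [CharZero K] {W W' : WeierstrassCurve K}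
    [W.IsElliptic] [W'.IsElliptic] {P : W.toAffine.Point} {Q : W'.toAffine.Point}
    (h : Ort P Q) : ∀ P' ∈ AddSubgroup.zmultiples P, Ort P' Q := by
  intro P' hP'
  obtain ⟨l, rfl⟩ := AddSubgroup.mem_zmultiples_iff.1 hP'
  have h1 := map_zsmul (((zHom (W⁄(AlgebraicClosure K)) (W'⁄(AlgebraicClosure K))).flip
    (constPt (AlgebraicClosure K) Q)).comp (constHom (AlgebraicClosure K) W)) l P
  unfold Ort at h ⊢
  change zc (constPt _ (l • P)) _ = l • zc (constPt _ P) _ at h1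
  rw [h1]
  exact IsOfFinAddOrder.zsmul h

theorem isPrincipal_swap {k : Type} [Field k] {W₁ W₂ : WeierstrassCurve k}
    {c : (W₁.toAffine.Point × W₂.toAffine.Point) →₀ ℤ} (h : IsPrincipal W₁ W₂ c) :
    IsPrincipal W₂ W₁ (Finsupp.mapDomain Prod.swap c) := by
  obtain ⟨K, i1, i2, ι, T₁, T₂, φ, S, p₁, p₂, hι, hφ, hS, hp, rfl⟩ := h
  refine ⟨K, i1, i2, ι, T₂, T₁, φ, S, p₂, p₁, hι, hφ, hS, fun v hv => (hp v hv).symm, ?_⟩
  rw [← Finsupp.mapDomain.addMonoidHom_apply, map_sum]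
  refine Finset.sum_congr rfl fun v _ => ?_
  exact Finsupp.mapDomain_single

theorem zc_swap {k : Type} [Field k] {W₁ W₂ : WeierstrassCurve k} {P : W₁.toAffine.Point}
    {Q : W₂.toAffine.Point} (h : IsOfFinAddOrder (zc P Q : CH0 W₁ W₂)) :
    IsOfFinAddOrder (zc Q P : CH0 W₂ W₁) := by
  set F := Finsupp.mapDomain.addMonoidHom (M := ℤ)
    (Prod.swap (α := W₁.toAffine.Point) (β := W₂.toAffine.Point)) with hF
  have hle : AddSubgroup.closure {c | IsPrincipal W₁ W₂ c} ≤
      (AddSubgroup.closure {c | IsPrincipal W₂ W₁ c}).comap F := by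
    rw [AddSubgroup.closure_le]
    intro c hc
    exact AddSubgroup.subset_closure (isPrincipal_swap hc)
  let G : CH0 W₁ W₂ →+ CH0 W₂ W₁ := QuotientAddGroup.map _ _ F hle
  have hpt : ∀ (P : W₁.toAffine.Point) (Q : W₂.toAffine.Point),
      G (pt P Q) = pt Q P := by
    intro P Q
    change QuotientAddGroup.mk' _ (F (Finsupp.single (P, Q) 1)) = _
    rw [pt]
    congr 1
    exact Finsupp.mapDomain_single
  have h2 : G (zc P Q) = zc Q P := by
    unfold zc
    rw [map_add, map_sub, map_sub, hpt, hpt, hpt, hpt]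
    abel
  rw [← h2]
  exact G.isOfFinAddOrder h

end Pool.Agent.LibTP50
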