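import Pool.Agent.LibTP50.Datum2
import Pool.Agent.LibTP50.Ort

/-!
The main theorem.
-/

open scoped Classical
open WeierstrassCurve Pool.Agent.LibBH2 Pool.Agent.LibIG50 IsDedekindDomain NumberField

namespace Pool.Agent.LibTP50

theorem datum2 (K : Type) [Field K] [NumberField K] (E : WeierstrassCurve K) [E.IsElliptic]
    {c a b : K} (hE : Quad E c a b) (A : AddSubgroup E.toAffine.Point)
    (hA : Module.rank ℤ A ≤ 2) :
    ∃ t : K, t ^ 2 + a * t + b ≠ 0 ∧ ∀ S : Set (HeightOneSpectrum (𝓞 K)), S.Finite →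
      ∃ v ∉ S, ∃ m : K, 1 < v.valuation K m ∧ m ≠ t ∧ m ^ 2 + a * m + b ≠ 0 ∧
      ∀ (h : (crv2 a b t m).toAffine.Nonsingular (kap2 a b t m * t) (kap2 a b t m ^ 2)), ∀ P ∈ A,
        Ort P (Affine.Point.some _ _ h : (crv2 a b t m).toAffine.Point) := by
  rcases rank_le_two A hA with h | ⟨p, r, hp, hr, hpr⟩
  · exact datum2_torsion K E hE A h
  · have hp' : ¬ IsOfFinAddOrder (p : E.toAffine.Point) := fun h =>
      hp ((A.subtype_injective.isOfFinAddOrder_iff).1 h)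
    have hr' : ¬ IsOfFinAddOrder (r : E.toAffine.Point) := fun h =>
      hr ((A.subtype_injective.isOfFinAddOrder_iff).1 h)
    obtain ⟨t, ht, H⟩ := datum2_main K E hE p r hp' hr'
    refine ⟨t, ht, fun S hS => ?_⟩
    obtain ⟨v, hv, m, hvm, hmt, hmq, H⟩ := H S hS
    refine ⟨v, hv, m, hvm, hmt, hmq, fun h P hP => ?_⟩
    have : (crv2 a b t m).IsElliptic := crv2_elliptic hE.disc ht hmq hmt
    obtain ⟨n, hn, hnP⟩ := hpr ⟨P, hP⟩
    refine ort_closure _ (H h) hn ?_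
    have h1 := AddSubgroup.mem_map_of_mem A.subtype hnP
    rw [AddMonoidHom.map_closure, Set.image_pair] at h1
    exact h1

/-- two points of the same level -/
theorem ort_crv2 {K : Type} [Field K] [CharZero K] {a b t m m' : K} (hd : a ^ 2 - 4 * b ≠ 0)
    (ht : t ^ 2 + a * t + b ≠ 0) (hm : m ^ 2 + a * m + b ≠ 0) (hmt : m ≠ t)
    (hm' : m' ^ 2 + a * m' + b ≠ 0) (hmt' : m' ≠ t)
    (h : (crv2 a b t m).toAffine.Nonsingular (kap2 a b t m * t) (kap2 a b t m ^ 2))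
    (h' : (crv2 a b t m').toAffine.Nonsingular (kap2 a b t m' * t) (kap2 a b t m' ^ 2)) :
    Ort (Affine.Point.some _ _ h : (crv2 a b t m).toAffine.Point)
      (Affine.Point.some _ _ h' : (crv2 a b t m').toAffine.Point) := by
  have hE : Quad (cq m a b) m a b := ⟨hd, hm, fun x => by
    simp only [cq, WeierstrassCurve.b₂, WeierstrassCurve.b₄, WeierstrassCurve.b₆]
    ring⟩
  obtain ⟨e₁, e₂, hEr, hsum, hprod⟩ := roots_of_quad (L := AlgebraicClosure K) hE
  have hR := crv2_roots (L := AlgebraicClosure K) ht hm hmt hEr.h12 hsum hprod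
  have hR' := crv2_roots (L := AlgebraicClosure K) ht hm' hmt' hEr.h12 hsum hprod
  unfold Ort
  rw [constPt_some, constPt_some]
  apply zc_of_level hR hR'
  rw [map_mul, map_mul]
  ring

/-- **Main theorem.** -/
theorem main2 (K : Type) [Field K] [NumberField K] (E : WeierstrassCurve K) [E.IsElliptic]
    (T : E.toAffine.Point) (hT : T ≠ 0) (hT' : 2 • T = 0) (A : AddSubgroup E.toAffine.Point)
    (hA : Module.rank ℤ A ≤ 2) :
    ∃ (C : ℕ → WeierstrassCurve K) (Q : ∀ n, (C n).toAffine.Point),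
      (∀ n, (C n).IsElliptic ∧ ¬ IsOfFinAddOrder (Q n)) ∧
      (∀ m n, m < n → ∃ v : HeightOneSpectrum (𝓞 K),
        1 < v.valuation K ((C n).c₄ ^ 3 / (C n).Δ) ∧
        v.valuation K ((C m).c₄ ^ 3 / (C m).Δ) ≤ 1 ∧ v.valuation K (E.c₄ ^ 3 / E.Δ) ≤ 1) ∧
      ∀ (r : ℕ) (n : Fin r → ℕ)
        (c : Pts (Fin.cons (E⁄(AlgebraicClosure K)) fun i => (C (n i))⁄(AlgebraicClosure K)) →₀ ℤ),
        (∀ a ∈ c.support,
          (∃ N : ℕ, 0 < N ∧ ∃ P ∈ A, N • a 0 = constPt (AlgebraicClosure K) P) ∧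
          ∀ i : Fin r, ∃ N : ℕ, 0 < N ∧ ∃ l : ℤ,
            N • a i.succ = constPt (AlgebraicClosure K) (l • Q (n i))) →
        (c.sum fun _ l => l) = 0 → (∀ i, IsOfFinAddOrder (c.sum fun a l => l • a i)) →
        IsOfFinAddOrder (cls _ c) := by
  obtain ⟨e, a, b, hE⟩ := quad_of_point E T hT hT'
  have hd := hE.disc
  obtain ⟨t, ht, H⟩ := datum2 K E hE A hA
  obtain ⟨S₁, hS₁, hS₁'⟩ := exists_nontorsion2 K a b t hd ht
  -- the excluded places
  obtain ⟨S₀, hS₀, hS₀'⟩ : ∃ S₀ : Set (HeightOneSpectrum (𝓞 K)), S₀.Finite ∧ ∀ v, v ∉ S₀ →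
      v.valuation K 2 = 1 ∧ v.valuation K a ≤ 1 ∧ v.valuation K b ≤ 1 ∧
        v.valuation K (a ^ 2 - 4 * b) = 1 ∧ v.valuation K (E.c₄ ^ 3 / E.Δ) ≤ 1 ∧
        ∀ m ∈ S₁, v.valuation K m ≤ 1 := by
    refine ⟨{v | v.valuation K 2 ≠ 1} ∪ {v | 1 < v.valuation K a} ∪ {v | 1 < v.valuation K b} ∪
      {v | v.valuation K (a ^ 2 - 4 * b) ≠ 1} ∪ {v | 1 < v.valuation K (E.c₄ ^ 3 / E.Δ)} ∪
      ⋃ m ∈ S₁, {v | 1 < v.valuation K m},
      (((((finite_not_unit K _ two_ne_zero).union (HeightOneSpectrum.Support.finite (𝓞 K) a)).union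
        (HeightOneSpectrum.Support.finite (𝓞 K) b)).union (finite_not_unit K _ hd)).union
        (j_integral K E)).union
        (hS₁.biUnion fun m _ => HeightOneSpectrum.Support.finite (𝓞 K) m), fun v hv => ?_⟩
    simp only [Set.mem_union, Set.mem_ofPred_eq, Set.mem_iUnion, not_or, not_exists, not_lt, ne_eq,
      not_not] at hv
    obtain ⟨⟨⟨⟨⟨h1, h2⟩, h3⟩, h4⟩, h5⟩, h6⟩ := hv
    exact ⟨h1, h2, h3, h4, h5, fun m hm => h6 m hm⟩
  obtain ⟨f, hf, hf'⟩ := exists_seq_of_forall_finset_exists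
    (α := HeightOneSpectrum (𝓞 K) × K)
    (fun x => x.1 ∉ S₀ ∧ 1 < x.1.valuation K x.2 ∧ x.2 ≠ t ∧ x.2 ^ 2 + a * x.2 + b ≠ 0 ∧
      ∀ (h : (crv2 a b t x.2).toAffine.Nonsingular (kap2 a b t x.2 * t) (kap2 a b t x.2 ^ 2)),
        ∀ P ∈ A, Ort P (Affine.Point.some _ _ h : (crv2 a b t x.2).toAffine.Point))
    (fun x x' => x'.1.valuation K ((crv2 a b t x.2).c₄ ^ 3 / (crv2 a b t x.2).Δ) ≤ 1) (by
      intro s _
      obtain ⟨v, hv, m, hvm, hmt, hmq, hP⟩ := H (S₀ ∪ ⋃ x ∈ s,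
        {v | 1 < v.valuation K ((crv2 a b t x.2).c₄ ^ 3 / (crv2 a b t x.2).Δ)})
        (hS₀.union (s.finite_toSet.biUnion fun x _ => j_integral K _))
      simp only [Set.mem_union, Set.mem_ofPred_eq, Set.mem_iUnion, not_or, not_exists,
        not_lt] at hv
      exact ⟨(v, m), ⟨hv.1, hvm, hmt, hmq, hP⟩, fun x hx => hv.2 x hx⟩)
  have hmt : ∀ n, (f n).2 ≠ t := fun n => (hf n).2.2.1
  have hmq : ∀ n, (f n).2 ^ 2 + a * (f n).2 + b ≠ 0 := fun n => (hf n).2.2.2.1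
  have hκ : ∀ n, kap2 a b t (f n).2 ≠ 0 := fun n => kap2_ne ht (hmt n)
  have hQ : ∀ n, (crv2 a b t (f n).2).toAffine.Nonsingular (kap2 a b t (f n).2 * t)
      (kap2 a b t (f n).2 ^ 2) := fun n => crv2_nons hd ht (hmq n) (hmt n)
  have hEl : ∀ n, (crv2 a b t (f n).2).IsElliptic := fun n => crv2_elliptic hd ht (hmq n) (hmt n)
  refine ⟨fun n => crv2 a b t (f n).2, fun n => Affine.Point.some _ _ (hQ n),
    fun n => ⟨hEl n, ?_⟩, fun m n hmn => ⟨(f n).1, ?_, hf' m n hmn,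
      (hS₀' _ (hf n).1).2.2.2.2.1⟩, fun r n c hc hdeg hsum => ?_⟩
  · refine hS₁' _ ?_ (hmq n) (hmt n) _ (hκ n) _ (hQ n)
    intro hmem
    exact absurd (hf n).2.1 (not_lt.2 ((hS₀' _ (hf n).1).2.2.2.2.2 _ hmem))
  · have h1 := hS₀' _ (hf n).1
    exact j_pole2 K _ h1.1 _ _ _ _ h1.2.1 h1.2.2.1 h1.2.2.2.1 (hκ n) (hf n).2.1
  · set kb := AlgebraicClosure K
    let W : Fin (r + 1) → WeierstrassCurve kb :=
      Fin.cons (E⁄kb) fun i => (crv2 a b t (f (n i)).2)⁄kb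
    have hW : ∀ i, (W i).IsElliptic := by
      refine Fin.cases ?_ fun i => ?_
      · change (E⁄kb).IsElliptic
        infer_instance
      · have := hEl (n i)
        change ((crv2 a b t (f (n i)).2)⁄kb).IsElliptic
        infer_instance
    let Γ : ∀ i, AddSubgroup (W i).toAffine.Point := Fin.cases
      (sat (A.map (constHom kb E)))
      (fun i => sat ((AddSubgroup.zmultiples (Affine.Point.some _ _ (hQ (n i)))).map
        (constHom kb (crv2 a b t (f (n i)).2))))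
    refine cls_torsion W Γ ?_ c ?_ hdeg hsum
    · have hAQ : ∀ i, ∀ P ∈ A, ∀ Q ∈ AddSubgroup.zmultiples
          (Affine.Point.some _ _ (hQ (n i)) : (crv2 a b t (f (n i)).2).toAffine.Point), Ort P Q :=
        fun i P hP => by
          have := hEl (n i)
          exact ort_zmultiples ((hf (n i)).2.2.2.2 (hQ (n i)) P hP)
      have hQQ : ∀ i j, ∀ P ∈ AddSubgroup.zmultiples
          (Affine.Point.some _ _ (hQ (n i)) : (crv2 a b t (f (n i)).2).toAffine.Point),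
          ∀ Q ∈ AddSubgroup.zmultiples
          (Affine.Point.some _ _ (hQ (n j)) : (crv2 a b t (f (n j)).2).toAffine.Point), Ort P Q :=
        fun i j P hP Q' hQ' => by
          have := hEl (n i)
          have := hEl (n j)
          have h3 := ort_crv2 hd ht (hmq (n i)) (hmt (n i)) (hmq (n j)) (hmt (n j)) (hQ (n i))
            (hQ (n j))
          exact ort_zmultiples (ort_zmultiples_left h3 _ hP) _ hQ'
      refine Fin.cases ?_ fun i => ?_
      · refine Fin.cases (fun h => absurd rfl h) fun j _ P hP Q' hQ' => ?_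
        have := hEl (n j)
        exact ort_sat (hAQ j) hP hQ'
      · refine Fin.cases (fun _ P hP Q' hQ' => ?_) fun j _ P hP Q' hQ' => ?_
        · have := hEl (n i)
          exact zc_swap (ort_sat (hAQ i) hQ' hP)
        · have := hEl (n i)
          have := hEl (n j)
          exact ort_sat (hQQ i j) hP hQ'
    · intro a ha
      obtain ⟨⟨N, hN, P, hP, hNP⟩, h⟩ := hc a ha
      refine Fin.cases ?_ fun i => ?_
      · change a 0 ∈ sat _
        exact ⟨N, hN, P, hP, hNP.symm⟩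
      · obtain ⟨N, hN, l, hl⟩ := h i
        change a i.succ ∈ sat _
        exact ⟨N, hN, l • _, ⟨l, rfl⟩, hl.symm⟩

end Pool.Agent.LibTP50
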