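import Pool.Agent.LibTP50.OB
import Pool.Agent.LibTP50.HC
import Pool.Agent.LibTP50.RD
import Pool.Agent.LibTP50.PL
import Pool.Agent.LibTP50.RK

/-!
Assembly.
-/

open scoped Classical
open WeierstrassCurve Pool.Agent.LibBH2 Pool.Agent.LibIG50 IsDedekindDomain NumberField

namespace Pool.Agent.LibTP50

/-- torsion values of a homomorphism on generators -/
theorem tors_of {G X M : Type} [AddCommGroup G] [AddCommGroup X] [AddCommGroup M] (φ : X →+ M)
    (f : G →+ X) (S : Set G) (h : ∀ g ∈ S, IsOfFinAddOrder (φ (f g))) {a : X} {N : ℕ} (hN : 0 < N)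
    {g : G} (hg : N • a = f g) {n : ℕ} (hn : 0 < n) (hS : n • g ∈ AddSubgroup.closure S) :
    IsOfFinAddOrder (φ a) := by
  have h1 : AddSubgroup.closure S ≤ (AddCommGroup.torsion M).comap (φ.comp f) := by
    rw [AddSubgroup.closure_le]
    intro g hg
    exact h g hg
  have h2 : IsOfFinAddOrder (φ (f (n • g))) := h1 hS
  rw [map_nsmul, ← hg, map_nsmul, map_nsmul] at h2
  rw [isOfFinAddOrder_iff_nsmul_eq_zero] at h2 ⊢
  obtain ⟨l, hl, h3⟩ := h2
  refine ⟨l * (n * N), Nat.mul_pos hl (Nat.mul_pos hn hN), ?_⟩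
  rw [mul_smul, mul_smul]
  exact h3

section crv

variable {K : Type} [Field K]

/-- the twisting factor -/
def kap (t m : K) : K := t * (t - 1) * (t - m)

/-- the curve `y ^ 2 = x (x - κ) (x - κ m)`, twisted so that the point of abscissa `κ t` is
rational -/
def crv (t m : K) : WeierstrassCurve K := tl (kap t m) m

theorem kap_ne {t m : K} (h0 : t ≠ 0) (h1 : t ≠ 1) (hmt : m ≠ t) : kap t m ≠ 0 :=
  mul_ne_zero (mul_ne_zero h0 (sub_ne_zero.2 h1)) (sub_ne_zero.2 hmt.symm)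

theorem tl_Δ (κ m : K) : (tl κ m).Δ = 16 * κ ^ 6 * m ^ 2 * (m - 1) ^ 2 := by
  simp only [tl, WeierstrassCurve.Δ, WeierstrassCurve.b₂, WeierstrassCurve.b₄,
    WeierstrassCurve.b₆, WeierstrassCurve.b₈]
  ring

theorem tl_Δ_ne [CharZero K] {κ m : K} (hκ : κ ≠ 0) (hm0 : m ≠ 0) (hm1 : m ≠ 1) :
    (tl κ m).Δ ≠ 0 := by
  rw [tl_Δ]
  have : (16 : K) ≠ 0 := by norm_num
  exact mul_ne_zero (mul_ne_zero (mul_ne_zero this (pow_ne_zero 6 hκ)) (pow_ne_zero 2 hm0))
    (pow_ne_zero 2 (sub_ne_zero.2 hm1))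

theorem tl_elliptic [CharZero K] {κ m : K} (hκ : κ ≠ 0) (hm0 : m ≠ 0) (hm1 : m ≠ 1) :
    (tl κ m).IsElliptic := ⟨(isUnit_iff_ne_zero).2 (tl_Δ_ne hκ hm0 hm1)⟩

theorem tl_roots [CharZero K] {κ m : K} (hκ : κ ≠ 0) (hm0 : m ≠ 0) (hm1 : m ≠ 1) :
    Roots (tl κ m) 0 κ (κ * m) where
  h12 := hκ.symm
  h13 := (mul_ne_zero hκ hm0).symm
  h23 := fun h => hm1 (mul_left_cancel₀ hκ (by rw [mul_one]; exact h.symm))
  eq := fun x => by
    simp only [tl, WeierstrassCurve.b₂, WeierstrassCurve.b₄, WeierstrassCurve.b₆]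
    ring

theorem crv_nons [CharZero K] {t m : K} (h0 : t ≠ 0) (h1 : t ≠ 1) (hm0 : m ≠ 0) (hm1 : m ≠ 1)
    (hmt : m ≠ t) : (crv t m).toAffine.Nonsingular (kap t m * t) (kap t m ^ 2) := by
  apply (Affine.equation_iff_nonsingular_of_Δ_ne_zero (W := crv t m)
    (tl_Δ_ne (kap_ne h0 h1 hmt) hm0 hm1)).1
  rw [Affine.equation_iff]
  simp only [crv, tl, kap]
  ring

/-- base change of the roots -/
theorem Roots.map {L : Type} [Field L] [Algebra K L] {W : WeierstrassCurve K} {e₁ e₂ e₃ : K}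
    [CharZero K] (h : Roots W e₁ e₂ e₃) :
    Roots (W⁄L) (algebraMap K L e₁) (algebraMap K L e₂) (algebraMap K L e₃) := by
  have inj := (algebraMap K L).injective
  have : CharZero L := charZero_of_injective_algebraMap inj
  have c0 : W.b₆ = -4 * (e₁ * e₂ * e₃) := by
    have := h.eq 0
    linear_combination this
  have c1 := h.eq 1
  have cm1 := h.eq (-1)
  have hb2 : W.b₂ = -4 * (e₁ + e₂ + e₃) := by
    have h2 : (2 : K) ≠ 0 := two_ne_zero
    apply mul_left_cancel₀ h2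
    linear_combination c1 + cm1 - 2 * c0
  have hb4 : W.b₄ = 2 * (e₁ * e₂ + e₁ * e₃ + e₂ * e₃) := by
    have h2 : (4 : K) ≠ 0 := by norm_num
    apply mul_left_cancel₀ h2
    linear_combination c1 - cm1
  refine ⟨fun h' => h.h12 (inj h'), fun h' => h.h13 (inj h'), fun h' => h.h23 (inj h'), ?_⟩
  intro x
  have e2 : (W⁄L).b₂ = algebraMap K L W.b₂ := WeierstrassCurve.map_b₂ W (algebraMap K L)
  have e4 : (W⁄L).b₄ = algebraMap K L W.b₄ := WeierstrassCurve.map_b₄ W (algebraMap K L)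
  have e6 : (W⁄L).b₆ = algebraMap K L W.b₆ := WeierstrassCurve.map_b₆ W (algebraMap K L)
  rw [e2, e4, e6, hb2, hb4, c0]
  simp only [map_mul, map_add, map_neg, map_ofNat]
  ring

end crv

/-- `z(P, Q)` is torsion over the algebraic closure -/
def Ort {K : Type} [Field K] {W W' : WeierstrassCurve K} (P : W.toAffine.Point)
    (Q : W'.toAffine.Point) : Prop :=
  IsOfFinAddOrder (zc (constPt (AlgebraicClosure K) P) (constPt (AlgebraicClosure K) Q) :
    CH0 (W⁄(AlgebraicClosure K)) (W'⁄(AlgebraicClosure K)))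

section ort

variable {K : Type} [Field K] [CharZero K]

theorem algInj : Function.Injective (algebraMap K (AlgebraicClosure K)) :=
  (algebraMap K (AlgebraicClosure K)).injective

theorem ort_of_level {W W' : WeierstrassCurve K} {e₁ e₂ e₃ f₁ f₂ f₃ : K} (hW : Roots W e₁ e₂ e₃)
    (hW' : Roots W' f₁ f₂ f₃) {x y x' y' : K} (h : W.toAffine.Nonsingular x y)
    (h' : W'.toAffine.Nonsingular x' y')
    (hl : (x - e₁) * (f₂ - f₁) = (x' - f₁) * (e₂ - e₁)) :
    Ort (Affine.Point.some x y h) (Affine.Point.some x' y' h') := by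
  unfold Ort
  rw [constPt_some, constPt_some]
  apply zc_of_level hW.map hW'.map
  have := congrArg (algebraMap K (AlgebraicClosure K)) hl
  simpa only [map_mul, map_sub] using this

theorem ort_of_level2 {W W' : WeierstrassCurve K} {e₁ e₂ e₃ f₁ f₂ f₃ : K} (hW : Roots W e₁ e₂ e₃)
    (hW' : Roots W' f₁ f₂ f₃) {x y x' y' : K} (h : W.toAffine.Nonsingular x y)
    (h' : W'.toAffine.Nonsingular x' y')
    (h0 : (x - e₁) * (x - e₂) * (x - e₃) ≠ 0) (h0' : (x' - f₁) * (x' - f₂) * (x' - f₃) ≠ 0)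
    (hl : (x - e₃) * (e₂ - e₁) * ((x' - f₃) * (f₂ - f₁)) =
      (x - e₁) * (x - e₂) * ((x' - f₁) * (x' - f₂))) :
    Ort (Affine.Point.some x y h) (Affine.Point.some x' y' h') := by
  unfold Ort
  rw [constPt_some, constPt_some]
  apply zc_of_level2 hW.map hW'.map
  · have := (map_ne_zero (algebraMap K (AlgebraicClosure K))).2 h0
    simpa only [map_mul, map_sub] using this
  · have := (map_ne_zero (algebraMap K (AlgebraicClosure K))).2 h0'
    simpa only [map_mul, map_sub] using this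
  · have := congrArg (algebraMap K (AlgebraicClosure K)) hl
    simpa only [map_mul, map_sub] using this

theorem ort_nsmul {W W' : WeierstrassCurve K} [W.IsElliptic] [W'.IsElliptic]
    {P : W.toAffine.Point} {Q : W'.toAffine.Point} {n : ℕ} (hn : 0 < n) (h : Ort (n • P) Q) :
    Ort P Q := by
  unfold Ort at h ⊢
  have h1 : constPt (AlgebraicClosure K) (n • P) = n • constPt (AlgebraicClosure K) P :=
    map_nsmul (constHom (AlgebraicClosure K) W) n P
  rw [h1, zc_nsmul_left, isOfFinAddOrder_iff_nsmul_eq_zero] at h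
  obtain ⟨l, hl, h2⟩ := h
  rw [← mul_smul] at h2
  exact isOfFinAddOrder_iff_nsmul_eq_zero.2 ⟨l * n, Nat.mul_pos hl hn, h2⟩

theorem ort_closure {W W' : WeierstrassCurve K} [W.IsElliptic] [W'.IsElliptic]
    (S : Set W.toAffine.Point) {Q : W'.toAffine.Point} (h : ∀ P ∈ S, Ort P Q)
    {P : W.toAffine.Point} {n : ℕ} (hn : 0 < n) (hP : n • P ∈ AddSubgroup.closure S) :
    Ort P Q := by
  exact tors_of ((zHom (W⁄(AlgebraicClosure K)) (W'⁄(AlgebraicClosure K))).flip
    (constPt (AlgebraicClosure K) Q)) (constHom (AlgebraicClosure K) W) S h (N := 1) one_pos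
    (one_smul _ _) hn hP

end ort

end Pool.Agent.LibTP50
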