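import Pool.Agent.LibTP50.Base

/-!
Task OA: points of Legendre curves whose doubles have the same abscissa.
-/

open scoped Classical
open WeierstrassCurve Pool.Agent.LibBH2 Pool.Agent.LibIG50

namespace Pool.Agent.LibTP50

/-- the double of a point of a Legendre curve -/
theorem lg_double {k : Type} [Field k] [CharZero k] {lam r y : k}
    (h : (lg lam).toAffine.Nonsingular r y) (hy : y ≠ 0) :
    ∃ (X Y : k) (H : (lg lam).toAffine.Nonsingular X Y),
      2 • (Affine.Point.some r y h : (lg lam).toAffine.Point) = Affine.Point.some X Y H ∧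
        X * (4 * (r * (r - 1) * (r - lam))) = (r ^ 2 - lam) ^ 2 := by
  rcases h2 : 2 • (Affine.Point.some r y h : (lg lam).toAffine.Point) with _ | ⟨X, Y, H⟩
  · exfalso
    have h3 : (Affine.Point.some r y h : (lg lam).toAffine.Point) = - Affine.Point.some r y h := by
      rw [eq_neg_iff_add_eq_zero, ← two_nsmul]
      exact h2
    rw [Affine.Point.neg_some, Affine.Point.some.injEq, TI94.negY_eq] at h3
    apply hy
    have h6 : (2 : k) * y = 0 := by linear_combination h3.2
    exact (mul_eq_zero.mp h6).resolve_left two_ne_zero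
  · refine ⟨X, Y, H, rfl, ?_⟩
    rw [two_nsmul] at h2
    have h4 := TI94.dbl_x hy h2
    rw [TI94.eqn h] at h4
    exact h4

theorem lg_zc2 {k : Type} [Field k] [CharZero k] [IsAlgClosed k] {lam mu : k} (hl0 : lam ≠ 0)
    (hl1 : lam ≠ 1) (hm0 : mu ≠ 0) (hm1 : mu ≠ 1) {r y q y' : k}
    (h : (lg lam).toAffine.Nonsingular r y) (h' : (lg mu).toAffine.Nonsingular q y')
    (hy : y ≠ 0) (hy' : y' ≠ 0)
    (hg : (r - lam) * (q - mu) = r * (r - 1) * (q * (q - 1))) :
    IsOfFinAddOrder (zc (Affine.Point.some r y h) (Affine.Point.some q y' h') :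
      CH0 (lg lam) (lg mu)) := by
  have hE₁ : (lg lam).IsElliptic := lg_elliptic hl0 hl1
  have hE₂ : (lg mu).IsElliptic := lg_elliptic hm0 hm1
  obtain ⟨X, Y, H, e1, e2⟩ := lg_double h hy
  obtain ⟨X', Y', H', e1', e2'⟩ := lg_double h' hy'
  have hr : r * (r - 1) * (r - lam) ≠ 0 := by
    rw [← TI94.eqn h]; exact pow_ne_zero 2 hy
  have hq : q * (q - 1) * (q - mu) ≠ 0 := by
    rw [← TI94.eqn h']; exact pow_ne_zero 2 hy'
  have hX : X = X' := by
    have h1 : X * (4 * (r * (r - 1) * (r - lam))) * (4 * (q * (q - 1) * (q - mu))) =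
        X' * (4 * (q * (q - 1) * (q - mu))) * (4 * (r * (r - 1) * (r - lam))) := by
      rw [e2, e2']
      have a1 : r ^ 2 - lam = r * (r - 1) + (r - lam) := by ring
      have a2 : q ^ 2 - mu = q * (q - 1) + (q - mu) := by ring
      rw [a1, a2]
      generalize hA : r * (r - 1) = A at *
      generalize hB : r - lam = B at *
      generalize hC : q * (q - 1) = C at *
      generalize hD : q - mu = D at *
      linear_combination (-4 * (A * D - B * C)) * hg
    have h4 : (4 : k) ≠ 0 := by norm_num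
    have h2 : (4 * (r * (r - 1) * (r - lam))) * (4 * (q * (q - 1) * (q - mu))) ≠ 0 :=
      mul_ne_zero (mul_ne_zero h4 hr) (mul_ne_zero h4 hq)
    apply mul_right_cancel₀ h2
    linear_combination h1
  subst hX
  have h5 := lg_zc hl0 hl1 hm0 hm1 H H'
  rw [← e1, ← e1', zc_nsmul_left, zc_nsmul_right] at h5
  rw [isOfFinAddOrder_iff_nsmul_eq_zero] at h5 ⊢
  obtain ⟨l, hl, h6⟩ := h5
  refine ⟨l * (2 * 2), by positivity, ?_⟩
  rw [mul_smul, mul_smul]
  exact h6

end Pool.Agent.LibTP50
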