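import Pool.Agent.LibTP50.OA

/-!
Task OB: the two orthogonality relations for arbitrary Weierstrass curves.
-/

open scoped Classical
open WeierstrassCurve Pool.Agent.LibBH2 Pool.Agent.LibIG50

namespace Pool.Agent.LibTP50

variable {k : Type} [Field k] [CharZero k] [IsAlgClosed k]

namespace OBaux

open TD1

theorem leg_rel {k : Type} [Field k] [CharZero k] (W : WeierstrassCurve k) (e₁ e₂ e₃ δ : k)
    (hW : ∀ x : k, 4 * x ^ 3 + W.b₂ * x ^ 2 + 2 * W.b₄ * x + W.b₆ =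
      4 * ((x - e₁) * (x - e₂) * (x - e₃))) (hδ : δ ^ 2 = e₂ - e₁) (hδ0 : δ ≠ 0)
    (lam : k) (hlam : lam = (e₃ - e₁) / (e₂ - e₁)) :
    Rel (lg lam) W δ e₁ (-(W.a₁ / 2)) (-((W.a₁ * e₁ + W.a₃) / 2)) := by
  have c0 : W.b₆ = -4 * (e₁ * e₂ * e₃) := by
    have := hW 0
    linear_combination this
  have c1 := hW 1
  have cm1 := hW (-1)
  have c2 := hW 2
  have hb2 : W.b₂ = -4 * (e₁ + e₂ + e₃) := by
    have h2 : (2 : k) ≠ 0 := two_ne_zero
    apply mul_left_cancel₀ h2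
    linear_combination c1 + cm1 - 2 * c0
  have hb4 : W.b₄ = 2 * (e₁ * e₂ + e₁ * e₃ + e₂ * e₃) := by
    have h2 : (4 : k) ≠ 0 := by norm_num
    apply mul_left_cancel₀ h2
    linear_combination c1 - cm1
  have h21 : e₂ - e₁ ≠ 0 := by rw [← hδ]; exact pow_ne_zero 2 hδ0
  have hl : lam * δ ^ 2 = e₃ - e₁ := by
    rw [hlam, hδ]; field_simp
  rw [WeierstrassCurve.b₂] at hb2
  rw [WeierstrassCurve.b₄] at hb4
  rw [WeierstrassCurve.b₆] at c0
  refine ⟨hδ0, ?_, ?_, ?_, ?_, ?_⟩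
  · show δ * 0 = _
    ring
  · show δ ^ 2 * (-(1 + lam)) = _
    linear_combination (-1 : k) * hδ - hl - (1 / 4 : k) * hb2
  · show δ ^ 3 * 0 = _
    ring
  · show δ ^ 4 * lam = _
    linear_combination δ ^ 2 * hl + (e₃ - e₁) * hδ - (1 / 2 : k) * hb4 - (e₁ / 2) * hb2
  · show δ ^ 6 * 0 = _
    have h := hW e₁
    rw [WeierstrassCurve.b₂, WeierstrassCurve.b₄, WeierstrassCurve.b₆] at h
    linear_combination (-1 / 4 : k) * h

/-- a point of a Weierstrass curve comes from a point of the Legendre curve -/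
theorem exists_leg {W : WeierstrassCurve k} {e₁ e₂ e₃ : k} (hW : Roots W e₁ e₂ e₃) {x y : k}
    (h : W.toAffine.Nonsingular x y) : ∃ (lam r Y : k) (hn : (lg lam).toAffine.Nonsingular r Y)
      (f : (lg lam).toAffine.Point → W.toAffine.Point), AlgMap (lg lam) W f ∧
      f (Affine.Point.some r Y hn) = Affine.Point.some x y h ∧ lam ≠ 0 ∧ lam ≠ 1 ∧
      x - e₁ = (e₂ - e₁) * r ∧ x - e₂ = (e₂ - e₁) * (r - 1) ∧ x - e₃ = (e₂ - e₁) * (r - lam) := by
  have h21 : e₂ - e₁ ≠ 0 := sub_ne_zero.mpr hW.h12.symm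
  obtain ⟨δ, hδ⟩ := IsAlgClosed.exists_pow_nat_eq (e₂ - e₁) (n := 2) two_pos
  have hδ0 : δ ≠ 0 := by
    rintro rfl
    apply h21
    rw [← hδ]
    ring
  set lam : k := (e₃ - e₁) / (e₂ - e₁) with hlam
  have hl : lam * (e₂ - e₁) = e₃ - e₁ := by
    rw [hlam]; field_simp
  have R := leg_rel W e₁ e₂ e₃ δ hW.eq hδ hδ0 lam hlam
  obtain ⟨S, hS⟩ := (vc_bijective R).2 (Affine.Point.some x y h)
  rcases S with _ | ⟨r, Y, hn⟩
  · exfalso
    have h0 : vc R (0 : (lg lam).toAffine.Point) = Affine.Point.some x y h := hS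
    rw [vc_zero] at h0
    exact Affine.Point.some_ne_zero h h0.symm
  · refine ⟨lam, r, Y, hn, vc R, vc_algMap R, hS, ?_, ?_, ?_, ?_, ?_⟩
    · rw [hlam]
      exact div_ne_zero (sub_ne_zero.mpr hW.h13.symm) h21
    · intro h1
      rw [h1] at hl
      apply hW.h23
      linear_combination hl
    all_goals
      have hS2 := hS
      rw [vc_some, Affine.Point.some.injEq] at hS2
      have h3 := hS2.1
      rw [hδ] at h3
    · linear_combination -h3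
    · linear_combination -h3
    · linear_combination -h3 + hl

end OBaux

theorem zc_of_level {W W' : WeierstrassCurve k} {e₁ e₂ e₃ f₁ f₂ f₃ : k} (hW : Roots W e₁ e₂ e₃)
    (hW' : Roots W' f₁ f₂ f₃) {x y x' y' : k} (h : W.toAffine.Nonsingular x y)
    (h' : W'.toAffine.Nonsingular x' y')
    (hl : (x - e₁) * (f₂ - f₁) = (x' - f₁) * (e₂ - e₁)) :
    IsOfFinAddOrder (zc (Affine.Point.some x y h) (Affine.Point.some x' y' h') : CH0 W W') := by
  obtain ⟨lam, r, Y, hn, f, hf, hfS, hl0, hl1, hx1, hx2, hx3⟩ := OBaux.exists_leg hW h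
  obtain ⟨mu, q, Y', hn', g, hg, hgS, hm0, hm1, hx1', hx2', hx3'⟩ := OBaux.exists_leg hW' h'
  have h21 : e₂ - e₁ ≠ 0 := sub_ne_zero.mpr hW.h12.symm
  have h21' : f₂ - f₁ ≠ 0 := sub_ne_zero.mpr hW'.h12.symm
  have hrq : r = q := by
    have h3 : ((e₂ - e₁) * (f₂ - f₁)) * r = ((e₂ - e₁) * (f₂ - f₁)) * q := by
      rw [hx1, hx1'] at hl
      linear_combination hl
    exact mul_left_cancel₀ (mul_ne_zero h21 h21') h3
  subst hrq
  have h4 := lg_zc hl0 hl1 hm0 hm1 hn hn'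
  have h5 := zc_map hf hg h4
  rw [hfS, hgS] at h5
  exact h5

theorem zc_of_level2 {W W' : WeierstrassCurve k} {e₁ e₂ e₃ f₁ f₂ f₃ : k} (hW : Roots W e₁ e₂ e₃)
    (hW' : Roots W' f₁ f₂ f₃) {x y x' y' : k} (h : W.toAffine.Nonsingular x y)
    (h' : W'.toAffine.Nonsingular x' y')
    (h0 : (x - e₁) * (x - e₂) * (x - e₃) ≠ 0) (h0' : (x' - f₁) * (x' - f₂) * (x' - f₃) ≠ 0)
    (hl : (x - e₃) * (e₂ - e₁) * ((x' - f₃) * (f₂ - f₁)) =
      (x - e₁) * (x - e₂) * ((x' - f₁) * (x' - f₂))) :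
    IsOfFinAddOrder (zc (Affine.Point.some x y h) (Affine.Point.some x' y' h') : CH0 W W') := by
  obtain ⟨lam, r, Y, hn, f, hf, hfS, hl0, hl1, hx1, hx2, hx3⟩ := OBaux.exists_leg hW h
  obtain ⟨mu, q, Y', hn', g, hg, hgS, hm0, hm1, hx1', hx2', hx3'⟩ := OBaux.exists_leg hW' h'
  have h21 : e₂ - e₁ ≠ 0 := sub_ne_zero.mpr hW.h12.symm
  have h21' : f₂ - f₁ ≠ 0 := sub_ne_zero.mpr hW'.h12.symm
  have hY : Y ≠ 0 := by
    rintro rfl
    apply h0
    rw [hx1, hx2, hx3]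
    have h3 := lg_eqn hn
    linear_combination (-(e₂ - e₁) ^ 3) * h3
  have hY' : Y' ≠ 0 := by
    rintro rfl
    apply h0'
    rw [hx1', hx2', hx3']
    have h3 := lg_eqn hn'
    linear_combination (-(f₂ - f₁) ^ 3) * h3
  have hrel : (r - lam) * (q - mu) = r * (r - 1) * (q * (q - 1)) := by
    rw [hx1, hx2, hx3, hx1', hx2', hx3'] at hl
    have h3 : ((e₂ - e₁) ^ 2 * (f₂ - f₁) ^ 2) * ((r - lam) * (q - mu)) =
        ((e₂ - e₁) ^ 2 * (f₂ - f₁) ^ 2) * (r * (r - 1) * (q * (q - 1))) := by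
      linear_combination hl
    exact mul_left_cancel₀ (mul_ne_zero (pow_ne_zero 2 h21) (pow_ne_zero 2 h21')) h3
  have h4 := lg_zc2 hl0 hl1 hm0 hm1 hn hn' hY hY' hrel
  have h5 := zc_map hf hg h4
  rw [hfS, hgS] at h5
  exact h5

end Pool.Agent.LibTP50
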